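import Pool.Agent.Zk94.TR.Act
import Pool.Agent.Y903.PS.T1A
import Pool.Agent.Y529.PS.T1B
import Pool.Agent.Y941.PS.T1C

/-!
# Divisors of even degree are principal modulo `2`, at arbitrary finite levels
-/

set_option autoImplicit false
set_option linter.all false

open Polynomial FF Pool.Agent.Y157.PS

namespace Pool.Agent.Zk94.TR

theorem a_t1' : S_T1 := Pool.Agent.Y941.PS.t1
  (Pool.Agent.Y903.PS.t1a Pool.Agent.Y903.PS.tsn Pool.Agent.Y536.PS.conj)
  (Pool.Agent.Y529.PS.t1b Pool.Agent.Y536.PS.conj)

section incl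

variable {κ R M : Type} [Field κ] [Field R] [Field M] [Algebra κ R] [Algebra R M] [Algebra κ M]
  [IsScalarTower κ R M]

/-- the inclusion of levels as an algebra -/
@[reducible] def inclAlg {E N : IntermediateField R M} (h : E ≤ N) : Algebra E N :=
  ((IntermediateField.inclusion h : E →ₐ[R] N) : E →+* N).toAlgebra

theorem inclAlg_apply {E N : IntermediateField R M} (h : E ≤ N) (z : E) :
    (((@algebraMap E N _ _ (inclAlg h)) z : N) : M) = (z : M) := rfl

theorem incl_towerR {E N : IntermediateField R M} (h : E ≤ N) :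
    @IsScalarTower R E N _ (inclAlg h).toSMul _ := by
  letI := inclAlg h
  exact IsScalarTower.of_algebraMap_eq fun z => rfl

theorem incl_towerκ {E N : IntermediateField R M} (h : E ≤ N) :
    @IsScalarTower κ E N _ (inclAlg h).toSMul _ := by
  letI := inclAlg h
  exact IsScalarTower.of_algebraMap_eq fun z => rfl

theorem incl_fin {E N : IntermediateField R M} (h : E ≤ N) [FiniteDimensional R N] :
    @FiniteDimensional E N _ _ (inclAlg h).toModule := by
  letI := inclAlg h
  haveI := incl_towerR h
  exact FiniteDimensional.right R E N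

theorem incl_gal {E N : IntermediateField R M} (h : E ≤ N) [IsGalois R N] :
    @IsGalois E _ N _ (inclAlg h) := by
  letI := inclAlg h
  haveI := incl_towerR h
  exact IsGalois.tower_top_of_isGalois R E N

theorem le_of_prim {E N : IntermediateField R M} (α : E)
    (hα : IntermediateField.adjoin R {α} = ⊤) (h : (α : M) ∈ N) : E ≤ N := by
  intro w hw
  have h1 : (⟨w, hw⟩ : E) ∈ IntermediateField.adjoin R {α} := by rw [hα]; trivial
  have h2 : (IntermediateField.adjoin R {α}).map E.val = IntermediateField.adjoin R {(α : M)} := by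
    rw [IntermediateField.adjoin_map, Set.image_singleton]
    rfl
  have h3 : w ∈ IntermediateField.adjoin R {(α : M)} := by
    rw [← h2]
    exact ⟨_, h1, rfl⟩
  exact (IntermediateField.adjoin_le_iff.2 (by
    rintro _ rfl
    exact h)) h3

theorem exists_above_level {ℓ : ℕ} {x : R} {B : Finset κ} {Y : M} [CharZero κ]
    (hC : Cov ℓ κ R M x B Y) (E : IntermediateField R M) [FiniteDimensional R E] :
    ∃ N : IntermediateField R M, Lev ℓ N ∧ E ≤ N := by
  haveI : CharZero R := charZero_of_injective_algebraMap (algebraMap κ R).injective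
  obtain ⟨α, hα⟩ := Field.exists_primitive_element R E
  obtain ⟨N, hN, hL⟩ := hC.pow (α : M)
  exact ⟨N, hL, le_of_prim α hα hN⟩

end incl

theorem p2_lev (κ R M : Type) [Field κ] [IsAlgClosed κ] [CharZero κ] [Field R] [Field M]
    [Algebra κ R] [Algebra R M] [Algebra κ M] [IsScalarTower κ R M] (x : R) (B : Finset κ) (Y : M)
    (hC : Cov 2 κ R M x B Y) (N : IntermediateField R M) (hN : Lev 2 N) : P2 κ N := by
  haveI : Fact (Nat.Prime 2) := ⟨Nat.prime_two⟩
  haveI := hN.fin
  haveI := hN.gal
  haveI hff : IsFF κ N := RatF.isFF hC.rat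
  intro D hD
  obtain ⟨z, hz, h⟩ := a_t1' 2 κ R N x hC.rat hN.card D (by exact_mod_cast hD)
  exact ⟨z, hz, fun w => by exact_mod_cast h w⟩

theorem p2_all (κ R M : Type) [Field κ] [IsAlgClosed κ] [CharZero κ] [Field R] [Field M]
    [Algebra κ R] [Algebra R M] [Algebra κ M] [IsScalarTower κ R M] (x : R) (B : Finset κ) (Y : M)
    (hC : Cov 2 κ R M x B Y) (E : IntermediateField R M) [FiniteDimensional R E] : P2 κ E := by
  obtain ⟨N, hN, hEN⟩ := exists_above_level hC E
  haveI := hN.fin
  haveI := hN.gal
  haveI hff : IsFF κ N := RatF.isFF hC.rat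
  letI := inclAlg hEN
  haveI := incl_towerκ (κ := κ) hEN
  haveI := incl_fin hEN
  haveI := incl_gal hEN
  exact (p2_lev κ R M x B Y hC N hN).desc

end Pool.Agent.Zk94.TR
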