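import Pool.Agent.Zk12.TR.Stm
import Pool.Agent.Zk94.TR.T1E

/-!
# Part A, first half: `S_T1E`
-/

set_option autoImplicit false
set_option linter.all false

open Polynomial FF Pool.Agent.Y157.PS

namespace Pool.Agent.Zk94.TR

theorem t1e : Pool.Agent.Zk12.TR.S_T1E := by
  intro κ R M _ _ _ _ _ _ _ _ _ x B Y hC E hE D hD
  haveI := hE
  exact p2_all κ R M x B Y hC E D hD

end Pool.Agent.Zk94.TR
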