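import Pool.Agent.Zk94.TR.Cvr

/-!
# Part A, second half: `S_WT`
-/

set_option autoImplicit false
set_option linter.all false

open Polynomial FF Pool.Agent.Y157.PS

namespace Pool.Agent.Zk94.TR

open Pool.Agent.Zk12.TR Pool.Agent.Y158.GR

section

variable {κ R M : Type} [Field κ] [IsAlgClosed κ] [CharZero κ] [Field R]
  [Field M] [Algebra κ R] [Algebra R M] [Algebra κ M] [IsScalarTower κ R M] {x : R}
  {B : Finset κ} {Y : M}

/-- surjectivity of `φ - r` at a Galois level which contains `Y` -/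
theorem to_sj (hC : Cov 2 κ R M x B Y) (N : IntermediateField R M) (hN : Lev 2 N) (hY : Y ∈ N)
    (φ : SL κ M) (hφN : ∀ z, φ.f z ∈ N ↔ z ∈ N) (r : ℕ) (hr : 0 < r) [IsFF κ N]
    (hfin : FinCls N.toSubfield (fun h => (∃ n : ℕ, h ^ (2 ^ n) ∈ N) ∧ φ.f h / h ^ r ∈ N)) :
    Sj (φ.res N hφN) r := by
  haveI : Fact (Nat.Prime 2) := ⟨Nat.prime_two⟩
  haveI := hN.fin
  rintro D ⟨n, z, hz, hD⟩
  obtain ⟨g0, hg00, hg0, hg0D⟩ := root_of hC N D n z hz hD
  obtain ⟨g, m, w, hg, hgm, hw, heq⟩ := surj_r r hr M N.toSubfield φ.f hφN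
    (a_divs 2 κ R M x B Y hC N hN hY) (a_fins 2 κ R M x B Y hC N hN hY) hfin g0 n hg00
    (by rw [hg0]; exact z.2)
  obtain ⟨E, hE, hED⟩ := div_of hC N g hg m hgm (ur_of_Y hC N hY g)
  have hw0 : w ≠ 0 := by
    rintro rfl
    rw [mul_zero] at heq
    exact hg00 heq
  have hgm0 : (⟨g ^ 2 ^ m, hgm⟩ : N) ≠ 0 := fun h1 => pow_ne_zero _ hg (congrArg Subtype.val h1)
  have hw0' : (⟨w, hw⟩ : N) ≠ 0 := fun h1 => hw0 (congrArg Subtype.val h1)
  have hφg : φ.f g ≠ 0 := (map_ne_zero_iff _ φ.f.injective).2 hg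
  refine ⟨E, ⟨w, hw⟩, ⟨m, _, hgm0, hE⟩, hw0', ?_⟩
  refine IsD.unique hC hg0D ?_
  have e1 : g0 = φ.f g * (g ^ r)⁻¹ * w := by rw [heq, div_eq_mul_inv]
  rw [e1, sub_eq_add_neg]
  exact ((hED.act φ hφN).mul hφg (inv_ne_zero (pow_ne_zero _ hg)) (hED.pow r).inv).mul
    (mul_ne_zero hφg (inv_ne_zero (pow_ne_zero _ hg))) hw0 (isD_alg N ⟨w, hw⟩)

/-- an element with a fixed divisor class -/
theorem fixed_el (hC : Cov 2 κ R M x B Y) (N : IntermediateField R M) (hN : Lev 2 N)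
    (φ : SL κ M) (hφN : ∀ z, φ.f z ∈ N ↔ z ∈ N) [IsFF κ N] (A : Place κ N →₀ ℤ) (hA : Tr κ A)
    (ν : N) (hν : ν ≠ 0) (hAν : act (φ.res N hφN) A - A = divisor κ ν) :
    ∃ t : M, t ≠ 0 ∧ (∃ s : ℕ, t ^ (2 ^ s) ∈ N) ∧ φ.f t / t ∈ N ∧ IsD N t A := by
  haveI := hN.fin
  obtain ⟨s, z, hz, hAz⟩ := hA
  obtain ⟨t, ht0, ht, htA⟩ := root_of hC N A s z hz hAz
  have hφt : φ.f t ≠ 0 := (map_ne_zero_iff _ φ.f.injective).2 ht0
  have hν0 : (ν : M) ≠ 0 := fun h1 => hν (Subtype.ext h1)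
  refine ⟨t, ht0, ⟨s, by rw [ht]; exact z.2⟩, ?_, htA⟩
  have h1 : IsD N (φ.f t * t⁻¹ * (ν : M)⁻¹) (0 : Place κ N →₀ ℤ) := by
    have h2 := ((htA.act φ hφN).mul hφt (inv_ne_zero ht0) htA.inv).mul
      (mul_ne_zero hφt (inv_ne_zero ht0)) (inv_ne_zero hν0) (isD_alg N ν).inv
    rwa [← sub_eq_add_neg, ← sub_eq_add_neg, hAν, sub_self] at h2
  obtain ⟨c, hc0, hc⟩ := h1.const hC
    (mul_ne_zero (mul_ne_zero hφt (inv_ne_zero ht0)) (inv_ne_zero hν0))
  have h3 : φ.f t / t = algebraMap κ M c * ν := by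
    rw [hc, div_eq_mul_inv, inv_mul_cancel_right₀ hν0]
  rw [h3]
  refine mul_mem ?_ ν.2
  rw [IsScalarTower.algebraMap_apply κ R M]
  exact N.algebraMap_mem _

/-- `N(h)` is stable -/
theorem Nh_stable (hM : Algebra.IsAlgebraic R M) (N : IntermediateField R M) (φ : SL κ M)
    (hφN : ∀ z, φ.f z ∈ N ↔ z ∈ N) (q : ℕ) (hq : Odd q) (h : M) (h0 : h ≠ 0) (n : ℕ)
    (hn : h ^ (2 ^ n) ∈ N) (hφh : φ.f h / h ^ q ∈ N) :
    ∀ z, φ.f z ∈ Nh N h ↔ z ∈ Nh N h := by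
  have hle := le_Nh N h
  have e1 : φ.f h = h ^ q * (φ.f h / h ^ q) := by
    rw [mul_div_cancel₀ _ (pow_ne_zero _ h0)]
  have hinvN : ∀ z ∈ N, φ.f.symm z ∈ N := fun z hz => by
    rw [← hφN, RingEquiv.apply_symm_apply]; exact hz
  -- the inverse
  have hsymm : φ.f.symm h ∈ Nh N h := by
    rcases Nat.eq_zero_or_pos n with hn0 | hn0
    · rw [hn0, pow_zero, pow_one] at hn
      exact hle (hinvN h hn)
    have hcop : Nat.Coprime q (2 ^ n) := Nat.Coprime.pow_right n (Nat.coprime_two_right.2 hq)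
    obtain ⟨m, -, hm⟩ := Nat.exists_mul_mod_eq_one_of_coprime hcop
      (Nat.one_lt_two_pow hn0.ne')
    obtain ⟨w, hw⟩ : ∃ w : M, w = φ.f h / h ^ q := ⟨_, rfl⟩
    rw [← hw] at e1 hφh
    have hw0 : w ≠ 0 := by
      rw [hw]
      exact div_ne_zero ((map_ne_zero_iff _ φ.f.injective).2 h0) (pow_ne_zero _ h0)
    obtain ⟨u, hu⟩ : ∃ u : M, u = (h ^ (2 ^ n)) ^ (q * m / 2 ^ n) * w ^ m := ⟨_, rfl⟩
    have huN : u ∈ N := by rw [hu]; exact mul_mem (pow_mem hn _) (pow_mem hφh _)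
    have hu0 : u ≠ 0 := by
      rw [hu]
      exact mul_ne_zero (pow_ne_zero _ (pow_ne_zero _ h0)) (pow_ne_zero _ hw0)
    have e2 : φ.f (h ^ m) = h * u := by
      have e3 : q * m = 2 ^ n * (q * m / 2 ^ n) + 1 := by
        have := Nat.div_add_mod (q * m) (2 ^ n)
        rw [hm] at this
        exact this.symm
      rw [map_pow, e1, mul_pow, ← pow_mul, hu, ← mul_assoc, ← pow_mul]
      congr 1
      conv_lhs => rw [e3, pow_succ, mul_comm]
    have e4 : h = φ.f (h ^ m * φ.f.symm u⁻¹) := by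
      rw [map_mul, e2, RingEquiv.apply_symm_apply, mul_assoc, mul_inv_cancel₀ hu0, mul_one]
    have e5 : φ.f.symm h = h ^ m * φ.f.symm u⁻¹ := by
      rw [RingEquiv.symm_apply_eq]; exact e4
    rw [e5]
    exact mul_mem (pow_mem (mem_Nh N h) _) (hle (hinvN _ (inv_mem huN)))
  intro z
  constructor
  · intro hz
    have h1 := Nh_map N h φ.f.symm (Nh N h) (fun z hz => hle (hinvN z hz)) hsymm _ hz
    rwa [RingEquiv.symm_apply_apply] at h1
  · intro hz
    refine Nh_map N h φ.f (Nh N h) (fun z hz => hle ((hφN z).2 hz)) ?_ z hz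
    rw [e1]
    exact mul_mem (pow_mem (mem_Nh N h) _) (hle hφh)

/-- the kernel of `φ - q` is finite -/
theorem fin_q (hC : Cov 2 κ R M x B Y) (N : IntermediateField R M) (hN : Lev 2 N) (hY : Y ∈ N)
    (φ : SL κ M) (hφN : ∀ z, φ.f z ∈ N ↔ z ∈ N) (q : ℕ) (hqo : Odd q)
    (hq : ∀ (n : ℕ) (c : κ), c ^ 2 ^ n = 1 → φ.s c = c ^ q)
    (hfix : FinCls N.toSubfield (fun h => (∃ n : ℕ, h ^ (2 ^ n) ∈ N) ∧ φ.f h / h ∈ N))
    (hS : ∀ (E : IntermediateField R M) (hE : FiniteDimensional R E) (hφE : ∀ z, φ.f z ∈ E ↔ z ∈ E)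
      (hFF : IsFF κ E), Sj (φ.res E hφE) 1) :
    FinCls N.toSubfield (fun h => (∃ n : ℕ, h ^ (2 ^ n) ∈ N) ∧ φ.f h / h ^ q ∈ N) := by
  classical
  haveI : Fact (Nat.Prime 2) := ⟨Nat.prime_two⟩
  haveI := hC.gal
  haveI := hN.fin
  have hM : Algebra.IsAlgebraic R M := inferInstance
  haveI : IsFF κ N := RatF.isFF hC.rat
  obtain ⟨C, hCC⟩ := hfix
  have hbound : ∀ h : M, h ≠ 0 → (∃ n : ℕ, h ^ (2 ^ n) ∈ N) → φ.f h / h ^ q ∈ N →
      h ^ (2 ^ C) ∈ N := by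
    intro h h0 hex hφh
    by_contra hcon
    obtain ⟨n0, hn0⟩ : ∃ n0, n0 = Nat.find hex := ⟨_, rfl⟩
    have hn1 : h ^ (2 ^ n0) ∈ N := by rw [hn0]; exact Nat.find_spec hex
    have hn2 : ∀ m < n0, h ^ (2 ^ m) ∉ N := fun m hm => by
      rw [hn0] at hm; exact Nat.find_min hex hm
    have hlt : C < n0 := by
      by_contra hle
      push Not at hle
      apply hcon
      have : h ^ (2 ^ C) = (h ^ (2 ^ n0)) ^ (2 ^ (C - n0)) := by
        rw [← pow_mul, ← pow_add, Nat.add_sub_cancel' hle]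
      rw [this]
      exact pow_mem hn1 _
    obtain ⟨h1, hh1⟩ : ∃ h1 : M, h1 = h ^ (2 ^ (n0 - (C + 1))) := ⟨_, rfl⟩
    have h10 : h1 ≠ 0 := by rw [hh1]; exact pow_ne_zero _ h0
    have hk1 : h1 ^ (2 ^ (C + 1)) ∈ N := by
      rw [hh1, ← pow_mul, ← pow_add, Nat.sub_add_cancel hlt]
      exact hn1
    have hk : h1 ^ (2 ^ C) ∉ N := by
      rw [hh1, ← pow_mul, ← pow_add]
      exact hn2 _ (by omega)
    have hφ1 : φ.f h1 / h1 ^ q ∈ N := by
      have : φ.f h1 / h1 ^ q = (φ.f h / h ^ q) ^ (2 ^ (n0 - (C + 1))) := by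
        rw [hh1, map_pow, _root_.div_pow, ← pow_mul, ← pow_mul, mul_comm]
      rw [this]
      exact pow_mem hφh _
    have hst := Nh_stable hM N φ hφN q hqo h1 h10 (C + 1) hk1 hφ1
    haveI hfin' : FiniteDimensional R (Nh N h1) := Nh_fin hM N h1
    haveI : IsFF κ (Nh N h1) := RatF.isFF hC.rat
    obtain ⟨A, hA, ⟨ν, hν, hAν⟩, hord⟩ := cover hC N hN hY φ hφN q hq h1 h10 C hk1 hk hφ1 hst
      (hS _ hfin' hst inferInstance)
    obtain ⟨t, ht0, hts, hφt, htA⟩ := fixed_el hC N hN φ hφN A hA ν hν hAν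
    have key : ∀ r : ℕ, 0 < r → r < 2 ^ (C + 1) → t ^ r ∉ N := by
      intro r hr hr2 hrN
      have hne : (⟨t ^ r, hrN⟩ : N) ≠ 0 := fun h1 => pow_ne_zero _ ht0 (congrArg Subtype.val h1)
      exact hord r hr hr2 ⟨t ^ r, hrN⟩ hne
        (IsD.unique hC (htA.pow r) (isD_alg N ⟨t ^ r, hrN⟩))
    have key2 : ∀ i j : ℕ, i < j → j < 2 ^ (C + 1) → t ^ j / t ^ i ∉ N := by
      intro i j hij hj
      rw [div_eq_mul_inv, ← pow_sub₀ t ht0 hij.le]
      exact key _ (by omega) (by omega)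
    have hinj : Set.InjOn (fun i : ℕ => t ^ i) (Finset.range (2 ^ (C + 1)) : Set ℕ) := by
      intro i hi j hj hij
      rw [Finset.mem_coe, Finset.mem_range] at hi hj
      by_contra hne
      rcases Nat.lt_or_gt_of_ne hne with hlt' | hlt'
      · apply key2 i j hlt' hj
        change t ^ i = t ^ j at hij
        rw [hij, div_self (pow_ne_zero _ ht0)]
        exact one_mem _
      · apply key2 j i hlt' hi
        change t ^ i = t ^ j at hij
        rw [hij, div_self (pow_ne_zero _ ht0)]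
        exact one_mem _
    obtain ⟨a, ha, b, hb, hab, habN⟩ := hCC ((Finset.range (2 ^ (C + 1))).image fun i => t ^ i) (by
      intro a ha
      obtain ⟨i, -, rfl⟩ := Finset.mem_image.1 ha
      obtain ⟨s, hs⟩ := hts
      refine ⟨pow_ne_zero _ ht0, ⟨s, ?_⟩, ?_⟩
      · rw [← pow_mul, mul_comm, pow_mul]
        exact pow_mem hs _
      · rw [map_pow, ← _root_.div_pow]
        exact pow_mem hφt _) (by
      rw [Finset.card_image_of_injOn hinj, Finset.card_range]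
      exact (Nat.lt_succ_self C).trans Nat.lt_two_pow_self)
    obtain ⟨i, hi, rfl⟩ := Finset.mem_image.1 ha
    obtain ⟨j, hj, rfl⟩ := Finset.mem_image.1 hb
    rw [Finset.mem_range] at hi hj
    have hne : i ≠ j := fun h1 => hab (by rw [h1])
    rcases Nat.lt_or_gt_of_ne hne with hlt' | hlt'
    · apply key2 i j hlt' hj
      have h5 := N.inv_mem habN
      rwa [inv_div] at h5
    · exact key2 j i hlt' hi habN
  exact FinCls.mono' (finCls_pow (a_fins 2 κ R M x B Y hC N hN hY) C)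
    fun z hz hP => hbound z hz hP.1 hP.2

/-- a Galois level which contains `E` and `Y` and is stable under `φ` -/
theorem exists_stable {k : Type} [Field k] [Algebra k κ] (hk : Algebra.IsAlgebraic k κ)
    (hC : Cov 2 κ R M x B Y) {φ : RingAut M} {σ : κ ≃ₐ[k] κ} (hφ : SA k x φ σ)
    (E : IntermediateField R M) [FiniteDimensional R E] :
    ∃ N : IntermediateField R M, Lev 2 N ∧ Y ∈ N ∧ E ≤ N ∧ ∀ z, φ z ∈ N ↔ z ∈ N := by
  classical
  haveI : Fact (Nat.Prime 2) := ⟨Nat.prime_two⟩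
  haveI := hC.gal
  have hR := hC.rat
  haveI : CharZero R := charZero_of_injective_algebraMap (algebraMap κ R).injective
  have hM : Algebra.IsAlgebraic R M := inferInstance
  obtain ⟨α, hα⟩ := Field.exists_primitive_element R E
  obtain ⟨T₁, hT₁, hm₁, hs₁⟩ := Pool.Agent.Y748.PS.exists_orbit (k := k) hk hR hM (α : M)
  obtain ⟨T₂, hT₂, hm₂, hs₂⟩ := Pool.Agent.Y748.PS.exists_orbit (k := k) hk hR hM Y
  obtain ⟨T, hT⟩ : ∃ T : Set M, T = T₁ ∪ T₂ := ⟨_, rfl⟩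
  have hTfin : T.Finite := by rw [hT]; exact hT₁.union hT₂
  have hs : ∀ ψ : M ≃+* M, (∀ c : k, ψ (algebraMap κ M (algebraMap k κ c)) =
      algebraMap κ M (algebraMap k κ c)) → ψ (algebraMap R M x) = algebraMap R M x →
        ∀ w ∈ T, ψ w ∈ T := by
    intro ψ h1 h2 w hw
    rw [hT] at hw ⊢
    rcases hw with h | h
    · exact Or.inl (hs₁ ψ h1 h2 w h)
    · exact Or.inr (hs₂ ψ h1 h2 w h)
  haveI : Finite T := hTfin
  obtain ⟨N, hN⟩ : ∃ N : IntermediateField R M, N = IntermediateField.adjoin R T := ⟨_, rfl⟩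
  have hsub : ∀ w ∈ T, w ∈ N := fun w hw => by
    rw [hN]; exact IntermediateField.subset_adjoin R T hw
  haveI hfin : FiniteDimensional R N := by
    rw [hN]
    exact IntermediateField.finiteDimensional_adjoin fun w _ => (hM.isAlgebraic w).isIntegral
  have hnorm : Normal R N := by
    rw [IntermediateField.normal_iff_forall_map_le']
    intro g
    rw [hN, IntermediateField.adjoin_map, IntermediateField.adjoin_le_iff]
    rintro _ ⟨w, hw, rfl⟩
    exact IntermediateField.subset_adjoin R T (hs (g : M ≃+* M)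
      (fun c => Pool.Agent.Y748.PS.gal_const g _) (g.commutes x) w hw)
  haveI : Algebra.IsSeparable R N := inferInstance
  have hgal : IsGalois R N := ⟨⟩
  have hNs : ∀ (ψ : RingAut M) (τ : κ ≃ₐ[k] κ), SA k x ψ τ → ∀ z ∈ N, ψ z ∈ N := by
    intro ψ τ hψ z hz
    rw [hN] at hz
    induction hz using IntermediateField.adjoin_induction with
    | mem y hy =>
      exact hsub _ (hs ψ (fun c => by rw [hψ.const, AlgEquiv.commutes]) hψ.fixx y hy)
    | algebraMap c =>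
      obtain ⟨c', hc'⟩ := hψ.mapR hR c
      rw [hc']
      exact N.algebraMap_mem c'
    | add a b _ _ ha hb => rw [map_add]; exact add_mem ha hb
    | inv a _ ha => rw [map_inv₀]; exact inv_mem ha
    | mul a b _ _ ha hb => rw [map_mul]; exact mul_mem ha hb
  refine ⟨N, Pool.Agent.Y748.PS.lev_of_galois hC.pow N hfin hgal, ?_, ?_, fun z =>
    ⟨fun h => ?_, hNs φ σ hφ z⟩⟩
  · exact hsub _ (by rw [hT]; exact Or.inr hm₂)
  · exact le_of_prim α hα (hsub _ (by rw [hT]; exact Or.inl hm₁))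
  · have h1 := hNs _ _ hφ.inv _ h
    have e : (φ⁻¹ : RingAut M) (φ z) = z := φ.symm_apply_apply z
    rwa [e] at h1

/-- descent of surjectivity to a stable level -/
theorem sj_desc {k : Type} [Field k] [Algebra k κ] (hk : Algebra.IsAlgebraic k κ)
    (hC : Cov 2 κ R M x B Y) (φ : SL κ M) {σ : κ ≃ₐ[k] κ} (hφ : SA k x φ.f σ) (r : ℕ)
    (hN : ∀ (N : IntermediateField R M) (hL : Lev 2 N) (hY : Y ∈ N)
      (hφN : ∀ z, φ.f z ∈ N ↔ z ∈ N) (hFF : IsFF κ N), Sj (φ.res N hφN) r)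
    (E : IntermediateField R M) (hE : FiniteDimensional R E) (hφE : ∀ z, φ.f z ∈ E ↔ z ∈ E)
    (hFF : IsFF κ E) : Sj (φ.res E hφE) r := by
  obtain ⟨N, hL, hY, hle, hφN⟩ := exists_stable hk hC (φ := φ.f) hφ E
  haveI := hL.fin
  haveI := hL.gal
  haveI : IsFF κ N := RatF.isFF hC.rat
  letI := inclAlg hle
  haveI := incl_towerκ (κ := κ) hle
  haveI := incl_towerR hle
  haveI := incl_fin hle
  haveI := incl_gal hle
  refine Sj.desc (K := E) (K' := N) (φ' := φ.res N hφN) (φ := φ.res E hφE)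
    (fun z => Subtype.ext rfl) (p2_all κ R M x B Y hC E) ?_ (hN N hL hY hφN inferInstance)
  obtain ⟨m, hm⟩ := hL.card
  have h1 : Module.finrank E N ∣ 2 ^ m := by
    rw [← hm, ← Module.finrank_mul_finrank R E N]
    exact dvd_mul_left _ _
  obtain ⟨a, -, ha⟩ := (Nat.dvd_prime_pow Nat.prime_two).1 h1
  exact ⟨a, ha⟩

end

theorem wt : Pool.Agent.Zk12.TR.S_WT := by
  intro k κ R M _ _ _ _ _ _ _ _ _ _ _ x B Y hk hC φ σ q hF E hE hEφ h n h0 hn hU
  haveI := hE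
  haveI := hC.gal
  let φS : SL κ M := ⟨φ, σ.toRingEquiv, hF.sa.const⟩
  have hSA : SA k x φS.f σ := hF.sa
  have hmu : ∀ (n : ℕ) (c : κ), c ^ 2 ^ n = 1 → φS.s c = c ^ q := hF.mu
  have hqo : Odd q := by
    by_contra hne
    rw [Nat.not_odd_iff_even] at hne
    have h1 := hF.mu 1 (-1) (by rw [pow_one]; exact neg_one_sq)
    rw [map_neg, map_one, hne.neg_one_pow] at h1
    have h2 : (2 : κ) = 0 := by linear_combination -h1
    exact two_ne_zero h2
  have hS1 : ∀ (E : IntermediateField R M) (hE : FiniteDimensional R E)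
      (hφE : ∀ z, φS.f z ∈ E ↔ z ∈ E) (hFF : IsFF κ E), Sj (φS.res E hφE) 1 :=
    fun E hE hφE hFF => sj_desc hk hC φS hSA 1 (fun N hL hY hφN hFF' =>
      to_sj hC N hL hY φS hφN 1 one_pos (by
        have := hF.fin N hL hY hφN
        simpa only [pow_one] using this)) E hE hφE hFF
  have hSq := sj_desc hk hC φS hSA q (fun N hL hY hφN hFF' =>
      to_sj hC N hL hY φS hφN q hqo.pos
        (fin_q hC N hL hY φS hφN q hqo hmu (hF.fin N hL hY hφN) hS1))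
  haveI : IsFF κ E := RatF.isFF hC.rat
  have hSE := hSq E hE hEφ inferInstance
  obtain ⟨D, hD, hDh⟩ := div_of hC E h h0 n hn hU
  have hne : (⟨h ^ 2 ^ n, hn⟩ : E) ≠ 0 := fun h1 => pow_ne_zero _ h0 (congrArg Subtype.val h1)
  obtain ⟨E', z, hE', hz, hDE⟩ := hSE D ⟨n, _, hne, hD⟩
  obtain ⟨m, y, hy, hmy⟩ := hE'
  obtain ⟨g, hg0, hg, hgE⟩ := root_of hC E E' m y hy hmy
  have hgm : g ^ 2 ^ m ∈ E := by rw [hg]; exact y.2
  have hφg : φ g ≠ 0 := (map_ne_zero_iff _ φ.injective).2 hg0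
  have hz0 : (z : M) ≠ 0 := fun h1 => hz (Subtype.ext h1)
  have hgq : g ^ q ≠ 0 := pow_ne_zero _ hg0
  have hu : IsD E (h * (φ g)⁻¹ * g ^ q * (z : M)⁻¹) (0 : Place κ E →₀ ℤ) := by
    have h2 := ((hDh.mul h0 (inv_ne_zero hφg) (hgE.act φS hEφ).inv).mul
      (mul_ne_zero h0 (inv_ne_zero hφg)) hgq (hgE.pow q)).mul
      (mul_ne_zero (mul_ne_zero h0 (inv_ne_zero hφg)) hgq) (inv_ne_zero hz0) (isD_alg E z).inv
    have h3 : D + -(act (φS.res E hEφ) E') + q • E' + -(divisor κ z) = 0 := by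
      rw [hDE]; abel
    rwa [h3] at h2
  obtain ⟨c, hc0, hc⟩ := hu.const hC (mul_ne_zero (mul_ne_zero (mul_ne_zero h0
    (inv_ne_zero hφg)) hgq) (inv_ne_zero hz0))
  refine ⟨g, m, algebraMap κ M c * z, hg0, hgm, ur_of hC E g hg0 m hgm E' hgE,
    mul_mem ?_ z.2, ?_⟩
  · rw [IsScalarTower.algebraMap_apply κ R M]
    exact E.algebraMap_mem _
  · rw [hc]
    field_simp

end Pool.Agent.Zk94.TR
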