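import Pool.Agent.Zk94.TR.Nrm

/-!
# Semilinear automorphisms acting on divisors; surjectivity of `φ - r` descends
-/

set_option autoImplicit false
set_option linter.all false

open Polynomial FF Pool.Agent.Y157.PS

namespace Pool.Agent.Zk94.TR

/-- a semilinear automorphism -/
structure SL (κ K : Type) [Field κ] [Field K] [Algebra κ K] where
  f : K ≃+* K
  s : κ ≃+* κ
  h : ∀ c, f (algebraMap κ K c) = algebraMap κ K (s c)

section act

variable {κ K : Type} [Field κ] [Field K] [Algebra κ K]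

theorem SL.h' (φ : SL κ K) (c : κ) : φ.f.symm (algebraMap κ K c) = algebraMap κ K (φ.s.symm c) := by
  rw [RingEquiv.symm_apply_eq, φ.h, RingEquiv.apply_symm_apply]

/-- the inverse -/
def SL.inv (φ : SL κ K) : SL κ K := ⟨φ.f.symm, φ.s.symm, φ.h'⟩

/-- the action on places -/
def pl (φ : SL κ K) (w : Place κ K) : Place κ K where
  ord z := w.ord (φ.f z)
  ord_zero := by rw [map_zero, w.ord_zero]
  ord_mul := by
    intro a b ha hb
    rw [map_mul, w.ord_mul (by simpa using ha) (by simpa using hb)]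
  ord_add := by
    intro a b ha hb hab
    rw [map_add]
    refine w.ord_add (by simpa using ha) (by simpa using hb) ?_
    rw [← map_add]
    exact (map_ne_zero_iff φ.f φ.f.injective).2 hab
  ord_const := by
    intro c hc
    rw [φ.h]
    exact w.ord_const ((map_ne_zero_iff φ.s φ.s.injective).2 hc)
  surj := by
    obtain ⟨t, ht0, ht⟩ := w.surj
    refine ⟨φ.f.symm t, by simpa using ht0, ?_⟩
    rw [RingEquiv.apply_symm_apply]
    exact ht

theorem pl_ord (φ : SL κ K) (w : Place κ K) (z : K) : (pl φ w).ord z = w.ord (φ.f z) := rfl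

/-- the action on places -/
def plE (φ : SL κ K) : Place κ K ≃ Place κ K where
  toFun := pl φ
  invFun := pl φ.inv
  left_inv w := by
    ext z
    change w.ord (φ.f (φ.f.symm z)) = w.ord z
    rw [RingEquiv.apply_symm_apply]
  right_inv w := by
    ext z
    change w.ord (φ.f.symm (φ.f z)) = w.ord z
    rw [RingEquiv.symm_apply_apply]

/-- the action on divisors -/
noncomputable def act (φ : SL κ K) : (Place κ K →₀ ℤ) →+ (Place κ K →₀ ℤ) :=
  Finsupp.mapDomain.addMonoidHom (plE φ).symm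

theorem act_apply (φ : SL κ K) (D : Place κ K →₀ ℤ) (w : Place κ K) : act φ D w = D (pl φ w) := by
  change Finsupp.mapDomain (plE φ).symm D w = _
  rw [← Finsupp.equivMapDomain_eq_mapDomain, Finsupp.equivMapDomain_apply, Equiv.symm_symm]
  rfl

theorem dg_act (φ : SL κ K) (D : Place κ K →₀ ℤ) : dg (act φ D) = dg D := by
  rw [dg_eq, dg_eq]
  exact Finsupp.sum_mapDomain_index (fun _ => rfl) (fun _ _ _ => rfl)

theorem act_div [CharZero κ] [IsFF κ K] (φ : SL κ K) (z : K) :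
    act φ (divisor κ z) = divisor κ (φ.f z) := by
  ext w
  rw [act_apply, divisor_apply, divisor_apply, pl_ord]

end act

section compat

variable {κ K K' : Type} [Field κ] [Field K] [Field K']
  [Algebra κ K] [Algebra κ K'] [Algebra K K']

/-- `φ'` prolongs `φ` -/
def Prol (φ' : SL κ K') (φ : SL κ K) : Prop :=
  ∀ z : K, φ'.f (algebraMap K K' z) = algebraMap K K' (φ.f z)

variable {φ' : SL κ K'} {φ : SL κ K}

theorem Prol.rs [IsScalarTower κ K K'] [Algebra.IsIntegral K K'] (h : Prol φ' φ) (w : Place κ K') :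
    Zk94.TR.rs (K := K) (pl φ' w) = pl φ (Zk94.TR.rs w) ∧ rm K (pl φ' w) = rm K w := by
  refine rs_eq ⟨rm_pos w, fun f => ?_⟩
  rw [pl_ord, h, ord_alg, pl_ord]

theorem Prol.psh [IsScalarTower κ K K'] [FiniteDimensional K K'] [IsAlgClosed κ] [CharZero κ] [IsFF κ K'] (h : Prol φ' φ)
    (D : Place κ K' →₀ ℤ) : Zk94.TR.psh (act φ' D) = act φ (Zk94.TR.psh D) := by
  change Finsupp.mapDomain Zk94.TR.rs (Finsupp.mapDomain (plE φ').symm D) =
    Finsupp.mapDomain (plE φ).symm (Finsupp.mapDomain Zk94.TR.rs D)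
  rw [← Finsupp.mapDomain_comp, ← Finsupp.mapDomain_comp]
  congr 1
  funext w
  rw [Function.comp_apply, Function.comp_apply, Equiv.eq_symm_apply]
  have h1 := (h.rs ((plE φ').symm w)).1
  change _ = plE φ _ at h1
  rw [← h1]
  congr 1
  exact (plE φ').apply_symm_apply w

theorem Prol.pb [IsScalarTower κ K K'] [FiniteDimensional K K'] [IsAlgClosed κ] [CharZero κ] [IsFF κ K'] (h : Prol φ' φ)
    (D : Place κ K →₀ ℤ) : Zk94.TR.pb (K' := K') (act φ D) = act φ' (Zk94.TR.pb D) := by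
  ext w
  rw [pb_apply, act_apply, act_apply, pb_apply, (h.rs w).1, (h.rs w).2]

end compat

/-- a divisor class of `2`-power order -/
def Tr (κ : Type) {K : Type} [Field κ] [Field K] [Algebra κ K] [CharZero κ] [IsFF κ K]
    (D : Place κ K →₀ ℤ) : Prop :=
  ∃ (n : ℕ) (z : K), z ≠ 0 ∧ (2 ^ n) • D = divisor κ z

/-- `φ - r` is surjective on the divisor classes of `2`-power order -/
def Sj {κ K : Type} [Field κ] [Field K] [Algebra κ K] [CharZero κ] [IsFF κ K] (φ : SL κ K)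
    (r : ℕ) : Prop :=
  ∀ D : Place κ K →₀ ℤ, Tr κ D → ∃ (E : Place κ K →₀ ℤ) (z : K), Tr κ E ∧ z ≠ 0 ∧
    D = act φ E - r • E + divisor κ z

section tr

variable {κ K : Type} [Field κ] [Field K] [Algebra κ K] [CharZero κ] [IsFF κ K]

theorem div_pow (z : K) (n : ℕ) : divisor κ (z ^ n) = n • divisor κ z := by
  ext w
  rw [divisor_apply, w.ord_pow, Finsupp.smul_apply, divisor_apply, nsmul_eq_mul]

theorem Tr.neg {D : Place κ K →₀ ℤ} (h : Tr κ D) : Tr κ (-D) := by
  obtain ⟨n, z, hz, h⟩ := h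
  refine ⟨n, z⁻¹, inv_ne_zero hz, ?_⟩
  rw [smul_neg, h, divisor_inv]

theorem Tr.add {D E : Place κ K →₀ ℤ} (h : Tr κ D) (h' : Tr κ E) : Tr κ (D + E) := by
  obtain ⟨n, z, hz, h⟩ := h
  obtain ⟨m, y, hy, h'⟩ := h'
  refine ⟨n + m, z ^ (2 ^ m) * y ^ (2 ^ n), mul_ne_zero (pow_ne_zero _ hz) (pow_ne_zero _ hy), ?_⟩
  rw [divisor_mul (pow_ne_zero _ hz) (pow_ne_zero _ hy), div_pow, div_pow, ← h, ← h', smul_add,
    smul_smul, smul_smul, ← pow_add, ← pow_add, add_comm m n]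

theorem Tr.div {z : K} (hz : z ≠ 0) : Tr κ (divisor κ z) :=
  ⟨0, z, hz, by rw [pow_zero, one_smul]⟩

theorem Tr.of_smul {D : Place κ K →₀ ℤ} {a : ℕ} (h : Tr κ ((2 ^ a) • D)) : Tr κ D := by
  obtain ⟨n, z, hz, h⟩ := h
  exact ⟨n + a, z, hz, by rw [pow_add, ← smul_smul, h]⟩

theorem Tr.dg_zero [IsAlgClosed κ] {D : Place κ K →₀ ℤ} (h : Tr κ D) : dg D = 0 := by
  obtain ⟨n, z, hz, h⟩ := h
  have h1 := congrArg dg h
  rw [dg_div, map_nsmul, nsmul_eq_mul] at h1
  rcases mul_eq_zero.1 h1 with h2 | h2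
  · exact absurd h2 (by positivity)
  · exact h2

end tr

section desc

variable {κ K K' : Type} [Field κ] [Field K] [Field K']
  [Algebra κ K] [Algebra κ K'] [Algebra K K'] [IsScalarTower κ K K'] [FiniteDimensional K K']
  [IsAlgClosed κ] [CharZero κ] [IsFF κ K] [IsFF κ K'] [IsGalois K K']

theorem Tr.psh {D : Place κ K' →₀ ℤ} (h : Tr κ D) : Tr κ (Zk94.TR.psh (K := K) D) := by
  obtain ⟨n, z, hz, h⟩ := h
  refine ⟨n, Algebra.norm K z, norm_ne_zero' hz, ?_⟩
  rw [← psh_div z hz, ← h, map_nsmul]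

theorem Tr.pb {D : Place κ K →₀ ℤ} (h : Tr κ D) : Tr κ (Zk94.TR.pb (K' := K') D) := by
  obtain ⟨n, z, hz, h⟩ := h
  refine ⟨n, algebraMap K K' z, (_root_.map_ne_zero _).2 hz, ?_⟩
  rw [← pb_div, ← h, map_nsmul]

/-- surjectivity of `φ - r` descends from `K'` to `K` -/
theorem Sj.desc {φ' : SL κ K'} {φ : SL κ K} (hp : Prol φ' φ) {r : ℕ} (h2 : P2 κ K)
    (hdeg : ∃ a : ℕ, Module.finrank K K' = 2 ^ a) (h : Sj φ' r) : Sj φ r := by
  obtain ⟨a, ha⟩ := hdeg
  intro D hD
  obtain ⟨E, z, hz, hE⟩ := h2.pow a D (by rw [hD.dg_zero]; exact dvd_zero _)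
  have hE2 : Tr κ E := by
    apply Tr.of_smul (a := a)
    have h3 : (2 ^ a) • E = D + -(divisor κ z) := by rw [hE]; abel
    rw [h3]
    exact hD.add (Tr.div hz).neg
  obtain ⟨F, y, hF, hy, hFE⟩ := h _ (hE2.pb (K' := K'))
  refine ⟨Zk94.TR.psh F, Algebra.norm K y * z, hF.psh, mul_ne_zero (norm_ne_zero' hy) hz, ?_⟩
  have h4 := congrArg (Zk94.TR.psh (K := K)) hFE
  rw [psh_pb, ha, map_add, map_sub, hp.psh, map_nsmul, psh_div y hy] at h4
  rw [divisor_mul (norm_ne_zero' hy) hz, ← add_assoc, ← h4]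
  exact hE

end desc

end Pool.Agent.Zk94.TR
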