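import Pool.Agent.Zk94.TR.Kum

/-!
# The cyclic covering `N(h)/N` and a fixed divisor class of order `2 ^ (k + 1)`
-/

set_option autoImplicit false
set_option linter.all false

open Polynomial FF Pool.Agent.Y157.PS

namespace Pool.Agent.Zk94.TR

open Pool.Agent.Zk12.TR

section

variable {κ R M : Type} [Field κ] [IsAlgClosed κ] [CharZero κ] [Field R]
  [Field M] [Algebra κ R] [Algebra R M] [Algebra κ M] [IsScalarTower κ R M] {x : R}
  {B : Finset κ} {Y : M}

theorem cover (hC : Cov 2 κ R M x B Y) (N : IntermediateField R M) (hN : Lev 2 N) (hY : Y ∈ N)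
    (φ : SL κ M) (hφN : ∀ z, φ.f z ∈ N ↔ z ∈ N) (q : ℕ)
    (hq : ∀ (n : ℕ) (c : κ), c ^ 2 ^ n = 1 → φ.s c = c ^ q)
    (h : M) (h0 : h ≠ 0) (k : ℕ) (hk1 : h ^ (2 ^ (k + 1)) ∈ N) (hk : h ^ (2 ^ k) ∉ N)
    (hφh : φ.f h / h ^ q ∈ N) (hφN' : ∀ z, φ.f z ∈ Nh N h ↔ z ∈ Nh N h)
    [IsFF κ N] [IsFF κ (Nh N h)] (hS : Sj (φ.res (Nh N h) hφN') 1) :
    ∃ A : Place κ N →₀ ℤ, Tr κ A ∧
      (∃ ν : N, ν ≠ 0 ∧ act (φ.res N hφN) A - A = divisor κ ν) ∧
      ∀ r : ℕ, 0 < r → r < 2 ^ (k + 1) → ∀ ν : N, ν ≠ 0 → r • A ≠ divisor κ ν := by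
  classical
  haveI := hC.gal
  haveI := hN.fin
  haveI := hN.gal
  have hM : Algebra.IsAlgebraic R M := inferInstance
  haveI hfin' : FiniteDimensional R (Nh N h) := Nh_fin hM N h
  obtain ⟨g, ζ, hζ, hgN, hgh, hall⟩ := exists_gen hC N h h0 k hk1 hk
  have hle := le_Nh N h
  letI := inclAlg hle
  haveI := incl_towerκ (κ := κ) hle
  haveI := incl_fin hle
  have hcN' : ∀ c : κ, algebraMap κ M c ∈ Nh N h := fun c => by
    rw [IsScalarTower.algebraMap_apply κ R M]
    exact (Nh N h).algebraMap_mem _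
  -- stability of `N(h)`
  have hgst : ∀ g' : M ≃ₐ[R] M, (∀ z ∈ N, g' z = z) → ∀ z ∈ Nh N h, g' z ∈ Nh N h := by
    intro g' hg'
    refine Nh_map N h (g' : M ≃+* M) (Nh N h) (fun z hz => ?_) ?_
    · change g' z ∈ _
      rw [hg' z hz]; exact hle hz
    · obtain ⟨i, hi⟩ := hall g' hg'
      change g' h ∈ _
      rw [hi]
      exact mul_mem (pow_mem (hcN' ζ) i) (mem_Nh N h)
  have hgi : ∀ z ∈ N, g⁻¹ z = z := by
    intro z hz
    have h1 : g⁻¹ (g z) = z := g.symm_apply_apply z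
    rwa [hgN z hz] at h1
  -- the automorphism
  let γ : (Nh N h) ≃ₐ[N] (Nh N h) := AlgEquiv.ofRingEquiv
    (f := { toFun := fun z => ⟨g z, hgst g hgN z z.2⟩
            invFun := fun z => ⟨g⁻¹ z, hgst g⁻¹ hgi z z.2⟩
            left_inv := fun z => Subtype.ext (g.symm_apply_apply _)
            right_inv := fun z => Subtype.ext (g.apply_symm_apply _)
            map_mul' := fun z w => Subtype.ext (map_mul g _ _)
            map_add' := fun z w => Subtype.ext (map_add g _ _) })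
    (fun z => Subtype.ext (hgN z z.2))
  have hγ : ∀ z : Nh N h, ((γ z : Nh N h) : M) = g z := fun z => rfl
  have hγi : ∀ (i : ℕ) (z : Nh N h), (((γ ^ i) z : Nh N h) : M) = (g ^ i) (z : M) := by
    intro i
    induction i with
    | zero => intro z; rfl
    | succ i ih =>
      intro z
      rw [pow_succ', pow_succ', AlgEquiv.mul_apply, AlgEquiv.mul_apply, hγ, ih]
  let h' : Nh N h := ⟨h, mem_Nh N h⟩
  have hext : ∀ τ τ' : (Nh N h) ≃ₐ[N] (Nh N h), τ h' = τ' h' → τ = τ' := by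
    intro τ τ' he
    have key : ∀ z ∈ Nh N h, ∀ hz : z ∈ Nh N h, τ ⟨z, hz⟩ = τ' ⟨z, hz⟩ := by
      refine Nh_ind N h ?_ ?_ ?_ ?_ ?_
      · intro z hz _
        exact (τ.commutes ⟨z, hz⟩).trans (τ'.commutes ⟨z, hz⟩).symm
      · intro _; exact he
      · intro a b ha hb h1 h2 hz
        have e : (⟨a + b, hz⟩ : Nh N h) = ⟨a, ha⟩ + ⟨b, hb⟩ := rfl
        rw [e, map_add, map_add, h1 ha, h2 hb]
      · intro a ha h1 hz
        have e : (⟨a⁻¹, hz⟩ : Nh N h) = (⟨a, ha⟩ : Nh N h)⁻¹ := rfl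
        rw [e, map_inv₀, map_inv₀, h1 ha]
      · intro a b ha hb h1 h2 hz
        have e : (⟨a * b, hz⟩ : Nh N h) = ⟨a, ha⟩ * ⟨b, hb⟩ := rfl
        rw [e, map_mul, map_mul, h1 ha, h2 hb]
    ext z
    exact congrArg Subtype.val (key z z.2 z.2)
  have hM1 : IsPrimitiveRoot (algebraMap κ M ζ) (2 ^ (k + 1)) :=
    hζ.map_of_injective (algebraMap κ M).injective
  -- every automorphism is a power of `γ`
  have hgen : ∀ τ : (Nh N h) ≃ₐ[N] (Nh N h), ∃ i : ℕ, τ = γ ^ i := by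
    intro τ
    have h1 : (((τ h' : Nh N h) : M) / h) ^ (2 ^ (k + 1)) = 1 := by
      have h2 : τ (h' ^ (2 ^ (k + 1))) = h' ^ (2 ^ (k + 1)) := τ.commutes ⟨_, hk1⟩
      rw [map_pow] at h2
      have h3 := congrArg (fun z : Nh N h => (z : M)) h2
      change ((τ h' : Nh N h) : M) ^ (2 ^ (k + 1)) = h ^ (2 ^ (k + 1)) at h3
      rw [_root_.div_pow, h3, div_self (pow_ne_zero _ h0)]
    obtain ⟨i, -, hi⟩ := hM1.eq_pow_of_pow_eq_one h1
    refine ⟨i, hext _ _ (Subtype.ext ?_)⟩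
    rw [hγi]
    change ((τ h' : Nh N h) : M) = (g ^ i) h
    rw [gal_pow_h (N := N) hgh, hi, div_mul_cancel₀ _ h0]
  -- `N(h)/N` is Galois
  haveI hgal : IsGalois N (Nh N h) := by
    apply IsGalois.of_fixedField_eq_bot
    rw [eq_bot_iff]
    intro z hz
    rw [IntermediateField.mem_fixedField_iff] at hz
    have hγz : γ z = z := hz γ trivial
    have hgz : g (z : M) = z := congrArg Subtype.val hγz
    have hgz' : ∀ i : ℕ, (g ^ i) (z : M) = z := by
      intro i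
      induction i with
      | zero => rfl
      | succ i ih => rw [pow_succ', AlgEquiv.mul_apply, ih, hgz]
    have hzN : (z : M) ∈ N := by
      by_contra hzN
      obtain ⟨g', hg', hgz''⟩ := exists_move hC N _ hzN
      apply hgz''
      obtain ⟨i, hi⟩ := hall g' hg'
      have h2 := Nh_eq N h (g' : M ≃+* M) ((g ^ i : M ≃ₐ[R] M) : M ≃+* M) (fun z hz => by
        change g' z = (g ^ i) z
        rw [hg' z hz, gal_pow_N hgN i z hz]) (by
        change g' h = (g ^ i) h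
        rw [hi, gal_pow_h (N := N) hgh]) z z.2
      change g' (z : M) = (g ^ i) (z : M) at h2
      rw [h2, hgz']
    exact IntermediateField.mem_bot.2 ⟨⟨z, hzN⟩, Subtype.ext rfl⟩
  -- the degree
  have hfr : Module.finrank N (Nh N h) = 2 ^ (k + 1) := by
    haveI : Fact (Nat.Prime 2) := ⟨Nat.prime_two⟩
    have e1 : orderOf γ = 2 ^ (k + 1) := by
      refine orderOf_eq_prime_pow ?_ ?_
      · intro h1
        have h2 := congrArg (fun τ : (Nh N h) ≃ₐ[N] (Nh N h) => ((τ h' : Nh N h) : M)) h1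
        change (((γ ^ 2 ^ k) h' : Nh N h) : M) = h at h2
        rw [hγi] at h2
        change (g ^ 2 ^ k) h = h at h2
        rw [gal_pow_h (N := N) hgh] at h2
        have h3 : algebraMap κ M ζ ^ 2 ^ k = 1 := mul_right_cancel₀ h0 (by rw [h2, one_mul])
        have h4 := hM1.dvd_of_pow_eq_one _ h3
        have h5 := Nat.le_of_dvd (by positivity) h4
        rw [pow_succ] at h5
        have h6 : 0 < 2 ^ k := by positivity
        omega
      · refine hext _ _ (Subtype.ext ?_)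
        rw [hγi]
        change (g ^ 2 ^ (k + 1)) h = h
        rw [gal_pow_h (N := N) hgh, hM1.pow_eq_one, one_mul]
    rw [← IsGalois.card_aut_eq_finrank, ← e1]
    symm
    refine orderOf_eq_card_of_forall_mem_zpowers fun τ => ?_
    obtain ⟨i, rfl⟩ := hgen τ
    exact ⟨i, zpow_natCast _ _⟩
  -- commutation
  have hcomm : ∀ z : Nh N h, (φ.res (Nh N h) hφN').f (γ z) = γ ((φ.res (Nh N h) hφN').f z) := by
    intro z
    apply Subtype.ext
    rw [res_f, hγ, hγ, res_f]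
    refine Nh_eq N h ((g : M ≃+* M).trans φ.f) (φ.f.trans (g : M ≃+* M)) ?_ ?_ z z.2
    · intro z hz
      change φ.f (g z) = g (φ.f z)
      rw [hgN z hz, hgN _ ((hφN z).2 hz)]
    · change φ.f (g h) = g (φ.f h)
      have e1 : φ.f h = h ^ q * (φ.f h / h ^ q) := by
        rw [mul_div_cancel₀ _ (pow_ne_zero _ h0)]
      have e2 : φ.f (algebraMap κ M ζ) = algebraMap κ M ζ ^ q := by
        rw [φ.h, hq (k + 1) ζ hζ.pow_eq_one, map_pow]
      have e3 : g (φ.f h) = algebraMap κ M ζ ^ q * φ.f h := by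
        rw [e1, map_mul, map_pow, hgh, hgN _ hφh, mul_pow, mul_assoc]
      rw [hgh, map_mul, e2, e3]
  exact cyc (k + 1) hfr hgen (fun w => rm_one hC hle hY w) (p2_all κ R M x B Y hC (Nh N h))
    (φ' := φ.res (Nh N h) hφN') (φ := φ.res N hφN) (fun z => Subtype.ext rfl) hcomm hS

end

end Pool.Agent.Zk94.TR
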