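import Pool.Agent.Y903.PS.TSN
import Pool.Agent.N230.FC.Tsen1

/-!
# Norm maps of function fields are surjective (Tsen)
-/

set_option autoImplicit false
set_option linter.all false

open Polynomial FF Pool.Agent.Y157.PS Pool.Agent.Y903.PS

namespace Pool.Agent.Zk94.TR

theorem c1G {κ K : Type} [Field κ] [IsAlgClosed κ] [CharZero κ] [Field K] [Algebra κ K]
    [IsFF κ K] {I : Type} [Fintype I] (Ψ : MvPolynomial I K) (n : ℕ) (hdeg : Ψ.totalDegree ≤ n)
    (h0 : MvPolynomial.eval 0 Ψ = 0) (hcard : n < Fintype.card I) :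
    ∃ a : I → K, a ≠ 0 ∧ MvPolynomial.eval a Ψ = 0 := by
  obtain ⟨x, hx⟩ := IsFF.exists_transcendental (k := κ) (K := K)
  haveI : FiniteDimensional (IntermediateField.adjoin κ {x}) K := IsFF.finite hx
  let x' : IntermediateField.adjoin κ {x} := ⟨x, IntermediateField.mem_adjoin_simple_self κ x⟩
  have hx' : Transcendental κ x' := by
    have := (transcendental_algebraMap_iff (R := κ)
      (algebraMap (IntermediateField.adjoin κ {x}) K).injective (a := x')).1 hx
    exact this
  refine Pool.Agent.N230.FC.c1 (k := κ) (E := IntermediateField.adjoin κ {x}) (L := K) x' hx' ?_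
    Ψ n hdeg h0 hcard
  rintro ⟨c, hc⟩
  rw [IntermediateField.mem_adjoin_simple_iff] at hc
  obtain ⟨r, s, hrs⟩ := hc
  have e : ∀ p : κ[X], ((aeval x' p : IntermediateField.adjoin κ {x}) : K) = aeval x p := by
    intro p
    have := aeval_algebraMap_apply K x' p
    exact this.symm
  by_cases hs : aeval x s = 0
  · refine ⟨0, 1, by rw [map_one]; exact one_ne_zero, Subtype.ext ?_⟩
    rw [map_one, mul_one, map_zero]
    change c = 0
    rw [hrs, hs, div_zero]
  · refine ⟨r, s, fun h => hs ?_, Subtype.ext ?_⟩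
    · rw [← e, h]; rfl
    · change c * ((aeval x' s : IntermediateField.adjoin κ {x}) : K) = (aeval x' r : _)
      rw [e, e, hrs, div_mul_cancel₀ _ hs]

/-- norm maps are surjective -/
theorem tsnG (κ K K' : Type) [Field κ] [IsAlgClosed κ] [CharZero κ] [Field K] [Field K']
    [Algebra κ K] [Algebra K K'] [FiniteDimensional K K'] [IsFF κ K] (z : K) :
    ∃ φ : K', Algebra.norm K φ = z := by
  let n := Module.finrank K K'
  have hn : 0 < n := Module.finrank_pos
  let b := Module.finBasis K K'
  let M : Fin n → Matrix (Fin n) (Fin n) K := fun i => Algebra.leftMulMatrix b (b i)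
  have hdeg : (nf M z).totalDegree ≤ n := (nf_hom M z).totalDegree_le
  have h0 : MvPolynomial.eval 0 (nf M z) = 0 := by
    rw [nf_eval]
    have : Nonempty (Fin n) := ⟨⟨0, hn⟩⟩
    simp only [Pi.zero_apply, zero_smul, Finset.sum_const_zero, zero_pow hn.ne', mul_zero,
      sub_zero]
    exact Matrix.det_zero
  obtain ⟨a, ha, ha0⟩ := c1G (κ := κ) (nf M z) n hdeg h0
    (by rw [Fintype.card_option, Fintype.card_fin]; omega)
  rw [nf_eval, sub_eq_zero] at ha0
  let β : K' := ∑ i, a (some i) • b i
  have hβ : Algebra.norm K β = z * a none ^ n := by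
    rw [← ha0, Algebra.norm_eq_matrix_det b]
    congr 1
    rw [map_sum]
    refine Finset.sum_congr rfl fun i _ => ?_
    rw [map_smul]
  have hT : a none ≠ 0 := by
    intro hT
    rw [hT, zero_pow hn.ne', mul_zero, Algebra.norm_eq_zero_iff] at hβ
    apply ha
    funext i
    rcases i with _ | i
    · exact hT
    · exact (Fintype.linearIndependent_iff.1 b.linearIndependent) (fun i => a (some i)) hβ i
  refine ⟨algebraMap K K' (a none)⁻¹ * β, ?_⟩
  rw [map_mul, Algebra.norm_algebraMap, hβ]
  change (a none)⁻¹ ^ n * (z * a none ^ n) = z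
  rw [mul_comm z, ← mul_assoc, ← mul_pow, inv_mul_cancel₀ hT, one_pow, one_mul]

end Pool.Agent.Zk94.TR
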