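import Pool.Agent.Zk94.TR.Act
import Pool.Agent.Zk94.TR.Tsn

/-!
# Cyclic unramified coverings of degree `2 ^ n` and fixed divisor classes of order `2 ^ n`
-/

set_option autoImplicit false
set_option linter.all false

open Polynomial FF Pool.Agent.Y157.PS

namespace Pool.Agent.Zk94.TR

theorem const_of_div {κ K : Type} [Field κ] [IsAlgClosed κ] [CharZero κ] [Field K] [Algebra κ K]
    [IsFF κ K] {z : K} (hz : z ≠ 0) (h : ∀ w : Place κ K, w.ord z = 0) :
    ∃ c : κ, c ≠ 0 ∧ algebraMap κ K c = z := by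
  have h1 : IsAlgebraic κ z := by
    by_contra htr
    obtain ⟨S, hS, -, hsum⟩ := zeros (k := κ) (K := K) (f := z) htr
    have hne : S = ∅ := by
      rw [Finset.eq_empty_iff_forall_notMem]
      intro w hw
      have := (hS w).1 hw
      rw [h w] at this
      exact lt_irrefl _ this
    rw [hne, Finset.sum_empty] at hsum
    haveI : FiniteDimensional (IntermediateField.adjoin κ {z}) K := IsFF.finite htr
    have h3 : 0 < Module.finrank (IntermediateField.adjoin κ {z}) K := Module.finrank_pos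
    omega
  obtain ⟨c, hc⟩ : ∃ c : κ, algebraMap κ K c = z :=
    minpoly.mem_range_of_degree_eq_one κ z
      (IsAlgClosed.degree_eq_one_of_irreducible κ (minpoly.irreducible h1.isIntegral))
  refine ⟨c, ?_, hc⟩
  rintro rfl
  exact hz (by rw [← hc, map_zero])

section one

variable {κ K : Type} [Field κ] [Field K] [Algebra κ K]

/-- the identity -/
def SL.one : SL κ K := ⟨RingEquiv.refl K, RingEquiv.refl κ, fun _ => rfl⟩

theorem act_one (D : Place κ K →₀ ℤ) : act SL.one D = D := by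
  ext w
  rw [act_apply]
  rfl

theorem act_single (φ : SL κ K) (w : Place κ K) (n : ℤ) :
    act φ (Finsupp.single (pl φ w) n) = Finsupp.single w n := by
  change Finsupp.mapDomain (plE φ).symm (Finsupp.single (plE φ w) n) = _
  rw [Finsupp.mapDomain_single, Equiv.symm_apply_apply]

end one

section cyc

variable {κ K K' : Type} [Field κ] [Field K] [Field K']
  [Algebra κ K] [Algebra κ K'] [Algebra K K'] [IsScalarTower κ K K'] [FiniteDimensional K K']

/-- a `K`-automorphism as a semilinear automorphism -/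
def gl (κ : Type) {K K' : Type} [Field κ] [Field K] [Field K']
    [Algebra κ K] [Algebra κ K'] [Algebra K K'] [IsScalarTower κ K K'] (γ : K' ≃ₐ[K] K') :
    SL κ K' :=
  ⟨γ.toRingEquiv, RingEquiv.refl κ, fun c => by
    change γ (algebraMap κ K' c) = algebraMap κ K' c
    rw [IsScalarTower.algebraMap_apply κ K K', γ.commutes]⟩

theorem gl_pl (γ : K' ≃ₐ[K] K') (w : Place κ K') :
    pl (gl κ γ) w = Pool.Agent.Y903.PS.pull γ w := rfl

theorem gl_prol (γ : K' ≃ₐ[K] K') : Prol (gl κ γ) (SL.one : SL κ K) := fun z => γ.commutes z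

variable [IsAlgClosed κ] [CharZero κ] [IsFF κ K'] [IsGalois K K']

/-- `H⁻¹` of the divisor group vanishes -/
theorem fiber {γ : K' ≃ₐ[K] K'} (hγ : ∀ τ : K' ≃ₐ[K] K', ∃ i : ℕ, τ = γ ^ i)
    (D : Place κ K' →₀ ℤ) (hD : psh (K := K) D = 0) :
    ∃ E : Place κ K' →₀ ℤ, D = act (gl κ γ) E - E := by
  classical
  let I : AddSubgroup (Place κ K' →₀ ℤ) := (act (gl κ γ) - AddMonoidHom.id _).range
  have h0 : ∀ (w : Place κ K') (n : ℤ),
      Finsupp.single w n - Finsupp.single (Pool.Agent.Y903.PS.pull γ w) n ∈ I := by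
    intro w n
    refine ⟨Finsupp.single (Pool.Agent.Y903.PS.pull γ w) n, ?_⟩
    rw [AddMonoidHom.sub_apply, ← gl_pl, act_single]
    rfl
  have h1 : ∀ (i : ℕ) (w : Place κ K') (n : ℤ),
      Finsupp.single w n - Finsupp.single (Pool.Agent.Y903.PS.pull (γ ^ i) w) n ∈ I := by
    intro i
    induction i with
    | zero =>
      intro w n
      rw [pow_zero, Pool.Agent.Y903.PS.pull_one, sub_self]
      exact zero_mem _
    | succ i ih =>
      intro w n
      rw [pow_succ, Pool.Agent.Y903.PS.pull_mul]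
      have h3 := add_mem (ih w n) (h0 (Pool.Agent.Y903.PS.pull (γ ^ i) w) n)
      rwa [sub_add_sub_cancel] at h3
  have h2 : ∀ (w w' : Place κ K') (n : ℤ), rs (K := K) w = rs w' →
      Finsupp.single w n - Finsupp.single w' n ∈ I := by
    intro w w' n h
    obtain ⟨g, hg⟩ := trans_rs h
    obtain ⟨i, rfl⟩ := hγ g
    rw [← hg]
    exact h1 i w n
  choose sec hsec using fun w0 : Place κ K => exists_above (K' := K') w0
  have h3 : Finsupp.mapDomain (sec ∘ rs) D = 0 := by
    rw [Finsupp.mapDomain_comp]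
    change Finsupp.mapDomain sec (psh D) = 0
    rw [hD, Finsupp.mapDomain_zero]
  have h4 : D ∈ I := by
    have h5 : D = D.sum fun w n => (Finsupp.single w n - Finsupp.single ((sec ∘ rs) w) n) := by
      rw [Finsupp.sum_sub, Finsupp.sum_single]
      change D = D - Finsupp.mapDomain (sec ∘ rs) D
      rw [h3, sub_zero]
    rw [h5]
    exact sum_mem fun w _ => h2 _ _ _ (hsec (rs w)).symm
  obtain ⟨E, hE⟩ := h4
  exact ⟨E, hE.symm⟩

theorem dg_pb (D : Place κ K →₀ ℤ) : dg (pb (K' := K') D) = Module.finrank K K' * dg D := by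
  rw [← dg_psh (K := K), psh_pb, map_nsmul, nsmul_eq_mul]

open Classical in
/-- an invariant divisor has degree divisible by the degree of the covering -/
theorem dg_inv (hur : ∀ w : Place κ K', rm K w = 1) {γ : K' ≃ₐ[K] K'}
    (hγ : ∀ τ : K' ≃ₐ[K] K', ∃ i : ℕ, τ = γ ^ i) (D : Place κ K' →₀ ℤ)
    (hD : act (gl κ γ) D = D) : (Module.finrank K K' : ℤ) ∣ dg D := by
  have h1 : ∀ w, D (Pool.Agent.Y903.PS.pull γ w) = D w := by
    intro w
    have := DFunLike.congr_fun hD w
    rwa [act_apply, gl_pl] at this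
  have h2 : ∀ (i : ℕ) (w), D (Pool.Agent.Y903.PS.pull (γ ^ i) w) = D w := by
    intro i
    induction i with
    | zero => intro w; rw [pow_zero, Pool.Agent.Y903.PS.pull_one]
    | succ i ih => intro w; rw [pow_succ, Pool.Agent.Y903.PS.pull_mul, h1, ih]
  have h3 : ∀ w w' : Place κ K', rs (K := K) w = rs w' → D w = D w' := by
    intro w w' h
    obtain ⟨g, hg⟩ := trans_rs h
    obtain ⟨i, rfl⟩ := hγ g
    rw [← hg, h2]
  rw [← dg_psh (K := K), dg_eq, Finsupp.sum]
  refine Finset.dvd_sum fun w0 _ => ?_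
  obtain ⟨w, hw⟩ := exists_above (K' := K') w0
  rw [psh_apply, Finset.sum_congr rfl (g := fun _ => D w) (fun w' hw' =>
    h3 _ _ ((mem_fib.1 hw').trans hw.symm)), Finset.sum_const, nsmul_eq_mul]
  have h4 := sum_rm (K' := K') w0
  rw [Finset.sum_congr rfl (fun w _ => hur w), Finset.sum_const, smul_eq_mul, mul_one] at h4
  rw [h4]
  exact dvd_mul_right _ _

theorem psh_gl (γ : K' ≃ₐ[K] K') (D : Place κ K' →₀ ℤ) :
    psh (K := K) (act (gl κ γ) D) = psh D := by
  rw [(gl_prol γ).psh, act_one]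

/-- **fixed classes of order `2 ^ n`** -/
theorem cyc [IsFF κ K] (n : ℕ) (hfin : Module.finrank K K' = 2 ^ n) {γ : K' ≃ₐ[K] K'}
    (hγ : ∀ τ : K' ≃ₐ[K] K', ∃ i : ℕ, τ = γ ^ i)
    (hur : ∀ w : Place κ K', rm K w = 1) (h2 : P2 κ K') {φ' : SL κ K'} {φ : SL κ K}
    (hp : Prol φ' φ) (hcomm : ∀ z, φ'.f (γ z) = γ (φ'.f z)) (hS : Sj φ' 1) :
    ∃ A : Place κ K →₀ ℤ, Tr κ A ∧ (∃ ν : K, ν ≠ 0 ∧ act φ A - A = divisor κ ν) ∧
      ∀ r : ℕ, 0 < r → r < 2 ^ n → ∀ ν : K, ν ≠ 0 → r • A ≠ divisor κ ν := by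
  classical
  obtain ⟨w0, -⟩ := exists_place (k := κ) (K := K)
  obtain ⟨g, hgdef⟩ : ∃ g : SL κ K', g = gl κ γ := ⟨_, rfl⟩
  have hgf : ∀ z, g.f z = γ z := fun z => by rw [hgdef]; rfl
  have hpg : ∀ D : Place κ K' →₀ ℤ, psh (K := K) (act g D) = psh D := fun D => by
    rw [hgdef]; exact psh_gl γ D
  have hcomm' : ∀ D : Place κ K' →₀ ℤ, act φ' (act g D) = act g (act φ' D) := by
    intro D
    ext w
    rw [act_apply, act_apply, act_apply, act_apply]
    congr 1
    ext z
    rw [pl_ord, pl_ord, pl_ord, pl_ord, hgf, hgf, hcomm]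
  -- the divisor `θ` of degree one
  obtain ⟨S, hSdef⟩ : ∃ S : Place κ K' →₀ ℤ, S = pb (K' := K') (Finsupp.single w0 1) := ⟨_, rfl⟩
  have hSg : act g S = S := by
    rw [hSdef, hgdef, ← (gl_prol γ).pb, act_one]
  have hSd : dg S = 2 ^ n := by
    rw [hSdef, dg_pb, hfin, dg_eq, Finsupp.sum_single_index rfl]
    push_cast
    ring
  obtain ⟨θ, f, hf, hθ⟩ := h2.pow n S (by rw [hSd]; push_cast; exact dvd_refl _)
  have hθd : dg θ = 1 := by
    have h3 := congrArg dg hθ
    rw [hSd, map_add, dg_div, add_zero, map_nsmul, nsmul_eq_mul] at h3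
    push_cast at h3
    have h4 : (2 : ℤ) ^ n ≠ 0 := by positivity
    exact (mul_left_cancel₀ h4 (by rw [← h3, mul_one])).symm
  have hθ2 : (2 ^ n) • (act g θ - θ) = divisor κ f - divisor κ (γ f) := by
    have h3 := hSg
    rw [hθ, map_add, map_nsmul, act_div, hgf] at h3
    rw [smul_sub]
    have h4 : (2 ^ n) • act g θ = (2 ^ n) • θ + divisor κ f - divisor κ (γ f) := by
      rw [← h3]; abel
    rw [h4]; abel
  have hγf : γ f ≠ 0 := (map_ne_zero_iff γ γ.injective).2 hf
  have hθT : Tr κ (act g θ - θ) := by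
    refine ⟨n, f * (γ f)⁻¹, mul_ne_zero hf (inv_ne_zero hγf), ?_⟩
    rw [hθ2, divisor_mul hf (inv_ne_zero hγf), divisor_inv, sub_eq_add_neg]
  obtain ⟨A', y, hA', hy, hAy⟩ := hS _ hθT
  rw [one_smul] at hAy
  have hN : ∀ z : K', z ≠ 0 → psh (K := K) (divisor κ z) = divisor κ (Algebra.norm K z) :=
    fun z hz => psh_div z hz
  refine ⟨psh A', hA'.psh, ⟨(Algebra.norm K y)⁻¹, inv_ne_zero (norm_ne_zero' hy), ?_⟩, ?_⟩
  · have h3 := congrArg (psh (K := K)) hAy
    rw [map_sub, hpg, sub_self, map_add, map_sub, hp.psh, hN y hy] at h3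
    rw [divisor_inv]
    exact eq_neg_of_add_eq_zero_left h3.symm
  · intro r hr hrn ν hν hAν
    obtain ⟨e, he⟩ := tsnG κ K K' ν
    have he0 : e ≠ 0 := by
      rintro rfl
      rw [Algebra.norm_zero] at he
      exact hν he.symm
    obtain ⟨E, hE⟩ := fiber (κ := κ) hγ (r • A' - divisor κ e) (by
      rw [map_sub, map_nsmul, hAν, hN e he0, he, sub_self])
    rw [← hgdef] at hE
    -- apply `φ - 1`
    have hφe : φ'.f e ≠ 0 := (map_ne_zero_iff _ φ'.f.injective).2 he0
    obtain ⟨ν1, hν1def⟩ : ∃ ν1 : K', ν1 = y ^ r * (φ'.f e * e⁻¹) := ⟨_, rfl⟩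
    have hν1 : ν1 ≠ 0 := by
      rw [hν1def]
      exact mul_ne_zero (pow_ne_zero _ hy) (mul_ne_zero hφe (inv_ne_zero he0))
    have hdν1 : divisor κ ν1 = r • divisor κ y + (divisor κ (φ'.f e) - divisor κ e) := by
      rw [hν1def, divisor_mul (pow_ne_zero _ hy) (mul_ne_zero hφe (inv_ne_zero he0)),
        divisor_mul hφe (inv_ne_zero he0), divisor_inv, div_pow, sub_eq_add_neg]
    obtain ⟨Δ0, hΔ0⟩ : ∃ Δ0 : Place κ K' →₀ ℤ, Δ0 = r • θ - (act φ' E - E) := ⟨_, rfl⟩
    have hΔ1 : act g Δ0 - Δ0 = divisor κ ν1 := by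
      have h3 := congrArg (act φ') hE
      rw [map_sub, map_nsmul, act_div, map_sub, hcomm'] at h3
      have h4 : r • (act φ' A' - A') = divisor κ (φ'.f e) - divisor κ e +
          ((act g (act φ' E) - act φ' E) - (act g E - E)) := by
        rw [← h3, ← hE, smul_sub]
        abel
      have h5 : r • (act g θ - θ) = r • (act φ' A' - A') + r • divisor κ y := by
        rw [hAy, smul_add]
      rw [hΔ0, hdν1, map_sub, map_nsmul, map_sub]
      rw [h4, smul_sub] at h5
      have h6 : r • act g θ = r • θ + (divisor κ (φ'.f e) - divisor κ e +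
          ((act g (act φ' E) - act φ' E) - (act g E - E)) + r • divisor κ y) := by
        rw [← h5]; abel
      rw [h6]
      abel
    -- the norm is constant
    have hNν : psh (K := K) (divisor κ ν1) = 0 := by
      rw [← hΔ1, map_sub, hpg, sub_self]
    obtain ⟨c, hc0, hc⟩ := const_of_div (κ := κ) (norm_ne_zero' (K := K) hν1) (fun w => by
      have := DFunLike.congr_fun hNν w
      rwa [hN ν1 hν1, divisor_apply] at this)
    obtain ⟨c0, hc1⟩ := IsAlgClosed.exists_pow_nat_eq c (n := 2 ^ n) (by positivity)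
    have hc00 : c0 ≠ 0 := by
      rintro rfl
      rw [zero_pow (by positivity)] at hc1
      exact hc0 hc1.symm
    have hcK : algebraMap κ K' c0 ≠ 0 := (_root_.map_ne_zero _).2 hc00
    obtain ⟨ν2, hν2def⟩ : ∃ ν2 : K', ν2 = ν1 * (algebraMap κ K' c0)⁻¹ := ⟨_, rfl⟩
    have hν2d : divisor κ ν2 = divisor κ ν1 := by
      rw [hν2def, divisor_mul hν1 (inv_ne_zero hcK), divisor_inv]
      have : divisor κ (algebraMap κ K' c0) = 0 := by
        ext w
        rw [divisor_apply, w.ord_const hc00]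
        rfl
      rw [this, neg_zero, add_zero]
    have hν2n : Algebra.norm K ν2 = 1 := by
      rw [hν2def, map_mul, Algebra.norm_inv, IsScalarTower.algebraMap_apply κ K K',
        Algebra.norm_algebraMap, ← hc, hfin, ← map_pow, hc1]
      exact mul_inv_cancel₀ ((_root_.map_ne_zero _).2 hc0)
    haveI : IsCyclic (K' ≃ₐ[K] K') := ⟨⟨γ, fun τ => by
      obtain ⟨i, rfl⟩ := hγ τ
      exact ⟨i, zpow_natCast _ _⟩⟩⟩
    obtain ⟨μ, hμ⟩ := groupCohomology.exists_div_of_norm_eq_one (g := γ) (fun τ => by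
      obtain ⟨i, rfl⟩ := hγ τ
      exact ⟨i, zpow_natCast _ _⟩) hν2n
    have hμ0 : (μ : K') ≠ 0 := μ.ne_zero
    have hγμ : γ (μ : K') ≠ 0 := (map_ne_zero_iff γ γ.injective).2 hμ0
    have hdμ : divisor κ ν1 = divisor κ (μ : K') - act g (divisor κ (μ : K')) := by
      rw [act_div, hgf, ← hν2d, ← hμ, div_eq_mul_inv, divisor_mul hμ0 (inv_ne_zero hγμ),
        divisor_inv, sub_eq_add_neg]
    have hinv : act g (Δ0 + divisor κ (μ : K')) = Δ0 + divisor κ (μ : K') := by
      rw [map_add]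
      have h7 : act g Δ0 = Δ0 + (divisor κ (μ : K') - act g (divisor κ (μ : K'))) := by
        rw [← hdμ, ← hΔ1]; abel
      rw [h7]; abel
    have hdvd := dg_inv hur hγ _ (by rw [← hgdef]; exact hinv)
    rw [map_add, dg_div, add_zero, hΔ0, map_sub, map_sub, dg_act, sub_self, sub_zero, map_nsmul,
      hθd, nsmul_eq_mul, mul_one, hfin] at hdvd
    have h8 := Nat.le_of_dvd hr (by exact_mod_cast hdvd)
    omega

end cyc

end Pool.Agent.Zk94.TR
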