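import Pool.Agent.Y705.PS.SURJ

/-!
# `φ - r` on the classes of `2`-power order of a level
-/

set_option autoImplicit false
set_option linter.all false

namespace Pool.Agent.Zk94.TR

open Pool.Agent.Y157.PS Pool.Agent.Y705.PS

section

variable {M : Type} [Field M] {N : Subfield M}

/-- finitely many classes -/
theorem finCls_of_finite {P : M → Prop} (S : Set (Mˣ ⧸ NU N)) (hS : S.Finite)
    (h : ∀ u : Mˣ, P u → (u : Mˣ ⧸ NU N) ∈ S) : FinCls N P := by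
  classical
  refine ⟨hS.toFinset.card, fun T hT hc => ?_⟩
  let f : M → Mˣ ⧸ NU N := fun z => if hz : z = 0 then 1 else ((Units.mk0 z hz : Mˣ) : Mˣ ⧸ NU N)
  have hf : ∀ z : M, ∀ hz : z ≠ 0, f z = ((Units.mk0 z hz : Mˣ) : Mˣ ⧸ NU N) := fun z hz =>
    dif_neg hz
  obtain ⟨a, ha, b, hb, hab, he⟩ := Finset.exists_ne_map_eq_of_card_lt_of_maps_to hc (f := f)
    (fun z hz => by
      obtain ⟨h1, h2⟩ := hT z hz
      rw [hf z h1]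
      exact hS.mem_toFinset.2 (h _ h2))
  refine ⟨a, ha, b, hb, hab, ?_⟩
  obtain ⟨ha0, -⟩ := hT a ha
  obtain ⟨hb0, -⟩ := hT b hb
  rw [hf a ha0, hf b hb0, ← div_eq_one, ← QuotientGroup.mk_div, cl_eq_one,
    Units.val_div_eq_div_val] at he
  exact he

theorem FinCls.mono' {P Q : M → Prop} (h : FinCls N Q) (hPQ : ∀ z, z ≠ 0 → P z → Q z) :
    FinCls N P := by
  obtain ⟨C, hC⟩ := h
  exact ⟨C, fun T hT hc => hC T (fun z hz => ⟨(hT z hz).1, hPQ z (hT z hz).1 (hT z hz).2⟩) hc⟩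

theorem pow_mem_iff (u : Mˣ) (m : ℕ) : (u : Mˣ ⧸ NU N) ^ m = 1 ↔ (u : M) ^ m ∈ N := by
  rw [← QuotientGroup.mk_pow, cl_eq_one, Units.val_pow_eq_pow_val]

/-- the torsion of bounded exponent is finite -/
theorem finCls_pow (h1 : FinCls N (fun h => h ^ 2 ∈ N)) (k : ℕ) :
    FinCls N (fun h => h ^ (2 ^ k) ∈ N) := by
  have ht : {a : Mˣ ⧸ NU N | a ^ 2 = 1}.Finite := FinCls.finite h1 _ fun u hu => by
    rw [Set.mem_ofPred_eq] at hu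
    exact (pow_mem_iff _ _).mp hu
  exact finCls_of_finite _ (tor_finite ht k) fun u hu => (pow_mem_iff _ _).mpr hu

end

section grp

variable {Q : Type} [CommGroup Q]

theorem surj_group_r (Φ : Q →* Q) (r : ℕ) (hr : 0 < r)
    (hd : ∀ (a : Q) (n : ℕ), a ^ (2 ^ n) = 1 → ∃ b : Q, b ^ 2 = a)
    (h1 : {a : Q | a ^ 2 = 1}.Finite)
    (h2 : {a : Q | (∃ n : ℕ, a ^ (2 ^ n) = 1) ∧ Φ a / a ^ r = 1}.Finite)
    (a : Q) (n : ℕ) (ha : a ^ (2 ^ n) = 1) :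
    ∃ (b : Q) (m : ℕ), b ^ (2 ^ m) = 1 ∧ a / (Φ b / b ^ r) = 1 := by
  haveI : Fact (Nat.Prime 2) := ⟨Nat.prime_two⟩
  let Ψ : Q →* Q := Φ / powMonoidHom (r - 1)
  have hΨ : ∀ a : Q, Ψ a / a = Φ a / a ^ r := by
    intro a
    change Φ a / a ^ (r - 1) / a = Φ a / a ^ r
    rw [div_div, ← pow_succ, Nat.sub_add_cancel hr]
  obtain ⟨b, m, hb, hab⟩ := surj_group Ψ (ℓ := 2) hd h1 (h2.subset (by
    rintro a ⟨h3, h4⟩
    exact ⟨h3, by rw [← hΨ, h4, div_self']⟩)) a n ha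
  refine ⟨b, m, hb, ?_⟩
  rw [← hΨ, ← hab, div_self']

end grp

/-- `φ - r` is surjective if its kernel is finite -/
theorem surj_r (r : ℕ) (hr : 0 < r) (M : Type) [Field M] (N : Subfield M) (φ : M ≃+* M)
    (hφ : ∀ z, φ z ∈ N ↔ z ∈ N)
    (hdiv : ∀ (h : M) (n : ℕ), h ≠ 0 → h ^ (2 ^ n) ∈ N →
      ∃ z ∈ N, ∃ g : M, z ≠ 0 ∧ h = z * g ^ 2)
    (h1 : FinCls N (fun h => h ^ 2 ∈ N))
    (h2 : FinCls N (fun h => (∃ n : ℕ, h ^ (2 ^ n) ∈ N) ∧ φ h / h ^ r ∈ N)) :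
    ∀ (h : M) (n : ℕ), h ≠ 0 → h ^ (2 ^ n) ∈ N →
      ∃ (g : M) (m : ℕ) (w : M), g ≠ 0 ∧ g ^ (2 ^ m) ∈ N ∧ w ∈ N ∧ h = φ g / g ^ r * w := by
  intro h n h0 hn
  haveI : Fact (Nat.Prime 2) := ⟨Nat.prime_two⟩
  have hle : NU N ≤ (NU N).comap (Units.map (φ : M →* M)) := by
    intro u hu
    rw [Subgroup.mem_comap, mem_NU]
    exact (hφ _).mpr hu
  let Φ : Mˣ ⧸ NU N →* Mˣ ⧸ NU N := QuotientGroup.map _ _ (Units.map (φ : M →* M)) hle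
  have hΦ : ∀ u : Mˣ, Φ (u : Mˣ ⧸ NU N) = ((Units.map (φ : M →* M) u : Mˣ) : Mˣ ⧸ NU N) :=
    fun u => rfl
  have hker : ∀ u : Mˣ, Φ (u : Mˣ ⧸ NU N) / (u : Mˣ ⧸ NU N) ^ r = 1 ↔
      φ u / (u : M) ^ r ∈ N := by
    intro u
    rw [hΦ, ← QuotientGroup.mk_pow, ← QuotientGroup.mk_div, cl_eq_one,
      Units.val_div_eq_div_val, Units.val_pow_eq_pow_val]
    rfl
  have hd : ∀ (a : Mˣ ⧸ NU N) (k : ℕ), a ^ (2 ^ k) = 1 → ∃ b : Mˣ ⧸ NU N, b ^ 2 = a := by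
    intro a k hk
    obtain ⟨u, rfl⟩ := QuotientGroup.mk_surjective a
    obtain ⟨z, hz, g, hz0, hg⟩ := hdiv u k u.ne_zero ((pow_mem_iff _ _).mp hk)
    have hg0 : g ≠ 0 := by
      rintro rfl
      rw [zero_pow two_ne_zero, mul_zero] at hg
      exact u.ne_zero hg
    refine ⟨(Units.mk0 g hg0 : Mˣ), ?_⟩
    rw [← QuotientGroup.mk_pow]
    rw [← div_eq_one, ← QuotientGroup.mk_div, cl_eq_one, Units.val_div_eq_div_val,
      Units.val_pow_eq_pow_val, Units.val_mk0, hg]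
    have h3 : g ^ 2 / (z * g ^ 2) = z⁻¹ := by
      field_simp
    rw [h3]
    exact N.inv_mem hz
  have ht : {a : Mˣ ⧸ NU N | a ^ 2 = 1}.Finite := FinCls.finite h1 _ fun u hu => by
    rw [Set.mem_ofPred_eq] at hu
    exact (pow_mem_iff _ _).mp hu
  have hk : {a : Mˣ ⧸ NU N | (∃ n : ℕ, a ^ (2 ^ n) = 1) ∧ Φ a / a ^ r = 1}.Finite := by
    refine FinCls.finite h2 _ fun u hu => ?_
    obtain ⟨⟨k, hk⟩, hu2⟩ := hu
    exact ⟨⟨k, (pow_mem_iff _ _).mp hk⟩, (hker u).mp hu2⟩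
  obtain ⟨b, m, hb, hab⟩ := surj_group_r Φ r hr hd ht hk ((Units.mk0 h h0 : Mˣ) : Mˣ ⧸ NU N) n
    ((pow_mem_iff _ _).mpr hn)
  obtain ⟨g, rfl⟩ := QuotientGroup.mk_surjective b
  have h3 : φ (g : M) / (g : M) ^ r ≠ 0 := div_ne_zero (by simp) (pow_ne_zero _ g.ne_zero)
  refine ⟨g, m, h / (φ g / (g : M) ^ r), g.ne_zero, (pow_mem_iff _ _).mp hb, ?_, ?_⟩
  · rw [hΦ, ← QuotientGroup.mk_pow, ← QuotientGroup.mk_div,
      ← QuotientGroup.mk_div, cl_eq_one, Units.val_div_eq_div_val, Units.val_div_eq_div_val,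
      Units.val_pow_eq_pow_val] at hab
    exact hab
  · rw [mul_div_cancel₀ _ h3]

end Pool.Agent.Zk94.TR
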