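import Pool.Agent.Zk12.TR.Dic
import Pool.Agent.Zk94.TR.T1E
import Pool.Agent.Zk94.TR.Cyc
import Pool.Agent.Zk94.TR.Srj

/-!
# Elements of `M` and divisor classes of a finite level
-/

set_option autoImplicit false
set_option linter.all false

open Polynomial FF Pool.Agent.Y157.PS

namespace Pool.Agent.Zk94.TR

open Pool.Agent.Zk12.TR

section

variable {κ R M : Type} [Field κ] [IsAlgClosed κ] [CharZero κ] [Field R]
  [Field M] [Algebra κ R] [Algebra R M] [Algebra κ M] [IsScalarTower κ R M] {x : R}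
  {B : Finset κ} {Y : M}

/-- the divisor `D` of the level `E` is the divisor of `h` -/
def IsD (E : IntermediateField R M) (h : M) (D : Place κ E →₀ ℤ) : Prop :=
  ∀ (W : Place κ M) (v : Place κ E) (e : ℕ), (∀ z : E, W.ord (z : M) = e * v.ord z) →
    W.ord h = e * D v

theorem root_pow (hC : Cov 2 κ R M x B Y) (n : ℕ) : ∀ g : M, g ≠ 0 →
    (∀ W : Place κ M, ((2 ^ n : ℕ) : ℤ) ∣ W.ord g) → ∃ h : M, h ^ (2 ^ n) = g := by
  induction n with
  | zero => intro g _ _; exact ⟨g, by rw [pow_zero, pow_one]⟩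
  | succ n ih =>
    intro g hg h
    obtain ⟨g1, hg1⟩ := hC.root g hg (fun W => by
      refine dvd_trans ?_ (h W)
      rw [pow_succ']
      push_cast
      exact dvd_mul_right _ _)
    have hg10 : g1 ≠ 0 := by
      rintro rfl
      rw [zero_pow two_ne_zero] at hg1
      exact hg hg1.symm
    obtain ⟨g2, hg2⟩ := ih g1 hg10 (fun W => by
      have h1 := h W
      rw [← hg1, W.ord_pow, pow_succ'] at h1
      push_cast at h1 ⊢
      exact (mul_dvd_mul_iff_left two_ne_zero).1 h1)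
    exact ⟨g2, by rw [pow_succ, pow_mul, hg2, hg1]⟩

/-- the element with a given divisor class of `2`-power order -/
theorem root_of (hC : Cov 2 κ R M x B Y) (E : IntermediateField R M) [FiniteDimensional R E]
    [IsFF κ E] (D : Place κ E →₀ ℤ) (n : ℕ) (z : E) (hz : z ≠ 0)
    (h : (2 ^ n) • D = divisor κ z) :
    ∃ g : M, g ≠ 0 ∧ g ^ (2 ^ n) = (z : M) ∧ IsD E g D := by
  have hz0 : (z : M) ≠ 0 := fun h0 => hz (Subtype.ext h0)
  have hv : ∀ v : Place κ E, v.ord z = 2 ^ n * D v := by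
    intro v
    have := DFunLike.congr_fun h v
    rw [Finsupp.smul_apply, divisor_apply, nsmul_eq_mul] at this
    push_cast at this
    exact this.symm
  obtain ⟨g, hg⟩ := root_pow hC n (z : M) hz0 (fun W => by
    obtain ⟨v, e, -, he, -⟩ := dic_over hC E inferInstance W
    rw [he z, hv]
    push_cast
    exact ⟨e * D v, by ring⟩)
  have hg0 : g ≠ 0 := by
    rintro rfl
    rw [zero_pow (by positivity)] at hg
    exact hz0 hg.symm
  refine ⟨g, hg0, hg, fun W v e he => ?_⟩
  have h1 := W.ord_pow g (2 ^ n)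
  rw [hg, he z, hv] at h1
  push_cast at h1
  have h2 : (2 : ℤ) ^ n ≠ 0 := by positivity
  exact mul_left_cancel₀ h2 (by rw [← h1]; ring)

/-- the divisor of an element whose class is unramified -/
theorem div_of (hC : Cov 2 κ R M x B Y) (E : IntermediateField R M) [FiniteDimensional R E]
    [IsFF κ E] (h : M) (h0 : h ≠ 0) (n : ℕ) (hn : h ^ (2 ^ n) ∈ E) (hU : Ur κ E h) :
    ∃ D : Place κ E →₀ ℤ, (2 ^ n) • D = divisor κ (⟨h ^ (2 ^ n), hn⟩ : E) ∧ IsD E h D := by
  obtain ⟨D, hD⟩ := exists_quot (2 ^ n) (divisor κ (⟨h ^ (2 ^ n), hn⟩ : E)) (fun v => by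
    obtain ⟨W, e, he12, he, hiff⟩ := dic_above hC E inferInstance v
    rw [divisor_apply]
    have h1 := he ⟨h ^ (2 ^ n), hn⟩
    change W.ord (h ^ (2 ^ n)) = _ at h1
    rw [W.ord_pow] at h1
    rcases he12 with rfl | rfl
    · rw [Nat.cast_one, one_mul] at h1
      exact ⟨_, h1.symm⟩
    · obtain ⟨c, hc1, hcW, hcE⟩ := hiff.1 rfl
      obtain ⟨k, hk⟩ := even_of_fix hC W c hcW hc1 h0 (hU W c hcW hcE)
      refine ⟨k, ?_⟩
      rw [hk] at h1
      push_cast at h1 ⊢
      linarith)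
  refine ⟨D, hD.symm, fun W v e he => ?_⟩
  have h1 := he ⟨h ^ (2 ^ n), hn⟩
  change W.ord (h ^ (2 ^ n)) = _ at h1
  have h3 := DFunLike.congr_fun hD v
  rw [Finsupp.smul_apply, divisor_apply, nsmul_eq_mul] at h3
  rw [W.ord_pow, h3] at h1
  push_cast at h1
  have h2 : (2 : ℤ) ^ n ≠ 0 := by positivity
  exact mul_left_cancel₀ h2 (by rw [h1]; ring)

theorem ur_of (hC : Cov 2 κ R M x B Y) (E : IntermediateField R M) [FiniteDimensional R E]
    (g : M) (hg : g ≠ 0) (m : ℕ) (hm : g ^ (2 ^ m) ∈ E) (D : Place κ E →₀ ℤ)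
    (hD : IsD E g D) : Ur κ E g := by
  intro W c hcW hcE
  by_cases hc1 : c = 1
  · rw [hc1]; rfl
  obtain ⟨v, e, he12, he, hiff⟩ := dic_over hC E inferInstance W
  have he2 : e = 2 := hiff.2 ⟨c, hc1, hcW, hcE⟩
  have h1 := hD W v e he
  have h2 : (c g / g) ^ (2 ^ m) = 1 := by
    rw [_root_.div_pow, ← map_pow, hcE _ hm, div_self (pow_ne_zero _ hg)]
  obtain ⟨ζ, hζ, hζ2⟩ := Pool.Agent.Y748.PS.rou_const (κ := κ) (M := M) (by positivity) h2
  have h3 : c g = algebraMap κ M ζ * g := by rw [hζ2, div_mul_cancel₀ _ hg]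
  have h4 := (sign hC W c hcW hc1 hg h3).1 (by rw [h1, he2]; exact ⟨D v, by push_cast; ring⟩)
  rw [h3, h4, map_one, one_mul]

theorem ur_of_Y (hC : Cov 2 κ R M x B Y) (E : IntermediateField R M) (hY : Y ∈ E) (g : M) :
    Ur κ E g := by
  intro W c hcW hcE
  by_cases hc1 : c = 1
  · rw [hc1]; rfl
  exfalso
  obtain ⟨-, hWY, hY0, hcY, -, -⟩ := invol hC W c hcW hc1
  rw [hcE Y hY] at hcY
  apply hY0
  haveI : CharZero M := charZero_of_injective_algebraMap (algebraMap κ M).injective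
  have h2 : (2 : M) * Y = 0 := by linear_combination hcY
  exact (mul_eq_zero.1 h2).resolve_left two_ne_zero

/-- an element without zeros and poles is constant -/
theorem const_M (hC : Cov 2 κ R M x B Y) (u : M) (hu : u ≠ 0) (h : ∀ W : Place κ M, W.ord u = 0) :
    ∃ c : κ, c ≠ 0 ∧ algebraMap κ M c = u := by
  obtain ⟨N, huN, hN⟩ := hC.pow u
  haveI := hN.fin
  haveI : IsFF κ N := RatF.isFF hC.rat
  obtain ⟨c, hc0, hc⟩ := const_of_div (κ := κ) (K := N) (z := ⟨u, huN⟩)
    (fun h0 => hu (congrArg Subtype.val h0)) (fun v => by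
      obtain ⟨W, e, he12, he, -⟩ := dic_above hC N inferInstance v
      have h1 := he ⟨u, huN⟩
      change W.ord u = _ at h1
      rw [h W] at h1
      rcases he12 with rfl | rfl
      · rw [Nat.cast_one, one_mul] at h1; exact h1.symm
      · push_cast at h1; omega)
  exact ⟨c, hc0, congrArg (fun z : N => (z : M)) hc⟩

/-- the divisor of a product etc. -/
theorem IsD.mul {E : IntermediateField R M} {g h : M} {D D' : Place κ E →₀ ℤ} (hg : g ≠ 0)
    (hh : h ≠ 0) (h1 : IsD E g D) (h2 : IsD E h D') : IsD E (g * h) (D + D') := by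
  intro W v e he
  rw [W.ord_mul hg hh, h1 W v e he, h2 W v e he, Finsupp.add_apply]
  ring

theorem IsD.inv {E : IntermediateField R M} {g : M} {D : Place κ E →₀ ℤ}
    (h1 : IsD E g D) : IsD E g⁻¹ (-D) := by
  intro W v e he
  rw [W.ord_inv, h1 W v e he, Finsupp.neg_apply]
  ring

theorem IsD.pow {E : IntermediateField R M} {g : M} {D : Place κ E →₀ ℤ}
    (h1 : IsD E g D) (n : ℕ) : IsD E (g ^ n) (n • D) := by
  intro W v e he
  rw [W.ord_pow, h1 W v e he, Finsupp.smul_apply, nsmul_eq_mul]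
  ring

theorem isD_alg (E : IntermediateField R M) [IsFF κ E] (z : E) :
    IsD E (z : M) (divisor κ z) := by
  intro W v e he
  rw [he z, divisor_apply]

/-- the divisor is determined -/
theorem IsD.unique (hC : Cov 2 κ R M x B Y) {E : IntermediateField R M} [FiniteDimensional R E]
    {g : M} {D D' : Place κ E →₀ ℤ} (h1 : IsD E g D) (h2 : IsD E g D') : D = D' := by
  ext v
  obtain ⟨W, e, he12, he, -⟩ := dic_above hC E inferInstance v
  have h3 := h1 W v e he
  have h4 := h2 W v e he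
  rw [h3] at h4
  rcases he12 with rfl | rfl
  · push_cast at h4; omega
  · push_cast at h4; omega

/-- an element with trivial divisor is constant -/
theorem IsD.const (hC : Cov 2 κ R M x B Y) {E : IntermediateField R M} [FiniteDimensional R E]
    {g : M} (hg : g ≠ 0) (h1 : IsD (κ := κ) E g 0) : ∃ c : κ, c ≠ 0 ∧ algebraMap κ M c = g := by
  refine const_M hC g hg fun W => ?_
  obtain ⟨v, e, -, he, -⟩ := dic_over hC E inferInstance W
  rw [h1 W v e he, Finsupp.coe_zero, Pi.zero_apply, mul_zero]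

/-- the restriction of a semilinear automorphism -/
def SL.res (φ : SL κ M) (E : IntermediateField R M) (h : ∀ z, φ.f z ∈ E ↔ z ∈ E) : SL κ E where
  f :=
    { toFun := fun z => ⟨φ.f z, (h z).2 z.2⟩
      invFun := fun z => ⟨φ.f.symm z, by rw [← h, RingEquiv.apply_symm_apply]; exact z.2⟩
      left_inv := fun z => Subtype.ext (φ.f.symm_apply_apply _)
      right_inv := fun z => Subtype.ext (φ.f.apply_symm_apply _)
      map_mul' := fun z w => Subtype.ext (map_mul φ.f _ _)
      map_add' := fun z w => Subtype.ext (map_add φ.f _ _) }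
  s := φ.s
  h := fun c => Subtype.ext (φ.h c)

theorem res_f (φ : SL κ M) (E : IntermediateField R M) (h : ∀ z, φ.f z ∈ E ↔ z ∈ E) (z : E) :
    (((φ.res E h).f z : E) : M) = φ.f z := rfl

theorem IsD.act {E : IntermediateField R M} {g : M} {D : Place κ E →₀ ℤ} (h1 : IsD E g D)
    (φ : SL κ M) (h : ∀ z, φ.f z ∈ E ↔ z ∈ E) :
    IsD E (φ.f g) (Zk94.TR.act (φ.res E h) D) := by
  intro W v e he
  rw [act_apply, ← pl_ord]
  refine h1 (pl φ W) (pl (φ.res E h) v) e fun z => ?_
  rw [pl_ord, pl_ord, ← res_f φ E h, he]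

end

end Pool.Agent.Zk94.TR
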