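import Pool.Agent.Zk94.TR.Dict

/-!
# The cyclic extension `N(h)` of a level `N`
-/

set_option autoImplicit false
set_option linter.all false

open Polynomial FF Pool.Agent.Y157.PS

namespace Pool.Agent.Zk94.TR

open Pool.Agent.Zk12.TR

section

variable {κ R M : Type} [Field κ] [IsAlgClosed κ] [CharZero κ] [Field R]
  [Field M] [Algebra κ R] [Algebra R M] [Algebra κ M] [IsScalarTower κ R M] {x : R}
  {B : Finset κ} {Y : M}

/-- the level generated by `N` and `h` -/
def Nh (N : IntermediateField R M) (h : M) : IntermediateField R M :=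
  IntermediateField.adjoin R ((N : Set M) ∪ {h})

theorem le_Nh (N : IntermediateField R M) (h : M) : N ≤ Nh N h :=
  fun z hz => IntermediateField.subset_adjoin R _ (Or.inl hz)

theorem mem_Nh (N : IntermediateField R M) (h : M) : h ∈ Nh N h :=
  IntermediateField.subset_adjoin R _ (Or.inr rfl)

theorem Nh_ind (N : IntermediateField R M) (h : M) {p : M → Prop} (h1 : ∀ z ∈ N, p z) (h2 : p h)
    (hadd : ∀ a b, a ∈ Nh N h → b ∈ Nh N h → p a → p b → p (a + b))
    (hinv : ∀ a, a ∈ Nh N h → p a → p a⁻¹)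
    (hmul : ∀ a b, a ∈ Nh N h → b ∈ Nh N h → p a → p b → p (a * b)) : ∀ z ∈ Nh N h, p z := by
  intro z hz
  induction hz using IntermediateField.adjoin_induction with
  | mem y hy =>
    rcases hy with hy | hy
    · exact h1 y hy
    · rw [Set.mem_singleton_iff] at hy
      rw [hy]; exact h2
  | algebraMap c => exact h1 _ (N.algebraMap_mem c)
  | add a b ha hb h3 h4 => exact hadd a b ha hb h3 h4
  | inv a ha h3 => exact hinv a ha h3
  | mul a b ha hb h3 h4 => exact hmul a b ha hb h3 h4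

theorem Nh_fin (hM : Algebra.IsAlgebraic R M) (N : IntermediateField R M)
    [FiniteDimensional R N] (h : M) : FiniteDimensional R (Nh N h) := by
  haveI : FiniteDimensional R (IntermediateField.adjoin R {h}) :=
    IntermediateField.adjoin.finiteDimensional (hM.isAlgebraic h).isIntegral
  have h1 : Nh N h = N ⊔ IntermediateField.adjoin R {h} := by
    unfold Nh
    rw [IntermediateField.adjoin_union, IntermediateField.adjoin_self]
  rw [h1]
  infer_instance

/-- a ring homomorphism maps `N(h)` into a level if it maps `N` and `h` there -/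
theorem Nh_map (N : IntermediateField R M) (h : M) (τ : M ≃+* M) (N' : IntermediateField R M)
    (h1 : ∀ z ∈ N, τ z ∈ N') (h2 : τ h ∈ N') : ∀ z ∈ Nh N h, τ z ∈ N' := by
  refine Nh_ind N h h1 h2 ?_ ?_ ?_
  · intro a b _ _ ha hb; rw [map_add]; exact add_mem ha hb
  · intro a _ ha; rw [map_inv₀]; exact inv_mem ha
  · intro a b _ _ ha hb; rw [map_mul]; exact mul_mem ha hb

/-- two ring automorphisms agree on `N(h)` if they agree on `N` and at `h` -/
theorem Nh_eq (N : IntermediateField R M) (h : M) (τ τ' : M ≃+* M)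
    (h1 : ∀ z ∈ N, τ z = τ' z) (h2 : τ h = τ' h) : ∀ z ∈ Nh N h, τ z = τ' z := by
  refine Nh_ind N h h1 h2 ?_ ?_ ?_
  · intro a b _ _ ha hb; rw [map_add, map_add, ha, hb]
  · intro a _ ha; rw [map_inv₀, map_inv₀, ha]
  · intro a b _ _ ha hb; rw [map_mul, map_mul, ha, hb]

/-- an element outside `N` is moved by an automorphism over `N` -/
theorem exists_move (hC : Cov 2 κ R M x B Y) (N : IntermediateField R M) (u : M) (hu : u ∉ N) :
    ∃ g : M ≃ₐ[R] M, (∀ z ∈ N, g z = z) ∧ g u ≠ u := by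
  haveI := hC.gal
  haveI : IsGalois N M := inferInstance
  by_contra hc
  push Not at hc
  apply hu
  have h1 : u ∈ (⊥ : IntermediateField N M) := by
    rw [InfiniteGalois.mem_bot_iff_fixed]
    intro f
    exact hc (f.restrictScalars R) (fun z hz => f.commutes ⟨z, hz⟩)
  obtain ⟨v, hv⟩ := IntermediateField.mem_bot.1 h1
  rw [← hv]
  exact v.2

/-- the generator of `Gal(N(h)/N)` and the roots of unity -/
theorem exists_gen (hC : Cov 2 κ R M x B Y) (N : IntermediateField R M) (h : M) (h0 : h ≠ 0)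
    (k : ℕ) (hk1 : h ^ (2 ^ (k + 1)) ∈ N) (hk : h ^ (2 ^ k) ∉ N) :
    ∃ (g : M ≃ₐ[R] M) (ζ : κ), IsPrimitiveRoot ζ (2 ^ (k + 1)) ∧ (∀ z ∈ N, g z = z) ∧
      g h = algebraMap κ M ζ * h ∧
      ∀ g' : M ≃ₐ[R] M, (∀ z ∈ N, g' z = z) → ∃ i : ℕ, g' h = algebraMap κ M ζ ^ i * h := by
  obtain ⟨g, hg, hgu⟩ := exists_move hC N _ hk
  have key : ∀ g' : M ≃ₐ[R] M, (∀ z ∈ N, g' z = z) → (g' h / h) ^ (2 ^ (k + 1)) = 1 := by
    intro g' hg'
    rw [_root_.div_pow, ← map_pow, hg' _ hk1, div_self (pow_ne_zero _ h0)]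
  obtain ⟨ζ, hζ, hζg⟩ := Pool.Agent.Y748.PS.rou_const (κ := κ) (M := M) (by positivity) (key g hg)
  have hgh : g h = algebraMap κ M ζ * h := by rw [hζg, div_mul_cancel₀ _ h0]
  have hord : orderOf ζ = 2 ^ (k + 1) := by
    haveI : Fact (Nat.Prime 2) := ⟨Nat.prime_two⟩
    refine orderOf_eq_prime_pow (fun h1 => hgu ?_) hζ
    rw [map_pow, hgh, mul_pow, ← map_pow, h1, map_one, one_mul]
  have hprim : IsPrimitiveRoot ζ (2 ^ (k + 1)) := by rw [← hord]; exact IsPrimitiveRoot.orderOf ζ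
  refine ⟨g, ζ, hprim, hg, hgh, fun g' hg' => ?_⟩
  have h1 : IsPrimitiveRoot (algebraMap κ M ζ) (2 ^ (k + 1)) :=
    hprim.map_of_injective (algebraMap κ M).injective
  obtain ⟨i, -, hi⟩ := h1.eq_pow_of_pow_eq_one (key g' hg')
  exact ⟨i, by rw [hi, div_mul_cancel₀ _ h0]⟩

theorem gal_pow_h {N : IntermediateField R M} {h : M} {g : M ≃ₐ[R] M} {ζ : κ}
    (hg : g h = algebraMap κ M ζ * h) (i : ℕ) : (g ^ i) h = algebraMap κ M ζ ^ i * h := by
  induction i with
  | zero => rw [pow_zero, pow_zero, one_mul]; rfl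
  | succ i ih =>
    rw [pow_succ', AlgEquiv.mul_apply, ih, map_mul, map_pow,
      Pool.Agent.Y748.PS.gal_const g, hg, pow_succ]
    ring

theorem gal_pow_N {N : IntermediateField R M} {g : M ≃ₐ[R] M} (hg : ∀ z ∈ N, g z = z) (i : ℕ) :
    ∀ z ∈ N, (g ^ i) z = z := by
  intro z hz
  induction i with
  | zero => rfl
  | succ i ih => rw [pow_succ', AlgEquiv.mul_apply, ih, hg z hz]

/-- the ramification index of a level over a level containing `Y` is one -/
theorem rm_one (hC : Cov 2 κ R M x B Y) {N N' : IntermediateField R M} (hle : N ≤ N') (hY : Y ∈ N)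
    [FiniteDimensional R N'] (w : Place κ N') :
    letI := inclAlg hle
    haveI := incl_towerκ (κ := κ) hle
    haveI := incl_fin hle
    rm N w = 1 := by
  letI := inclAlg hle
  haveI := incl_towerκ (κ := κ) hle
  haveI := incl_fin hle
  change rm N w = 1
  obtain ⟨W, e, he12, he, -⟩ := dic_above hC N' inferInstance w
  obtain ⟨t, htN, ht0, ht⟩ := Pool.Agent.Y496.PS.exists_unif hC N hY W
  have h1 := he ⟨t, hle htN⟩
  change W.ord t = _ at h1
  rw [ht] at h1
  have h2 := ord_alg (K := N) w ⟨t, htN⟩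
  have h3 : algebraMap N N' ⟨t, htN⟩ = ⟨t, hle htN⟩ := rfl
  rw [h3] at h2
  rw [h2] at h1
  have h4 : (rm N w : ℤ) ∣ 1 := ⟨e * (rs (K := N) w).ord ⟨t, htN⟩, by rw [h1]; ring⟩
  have h5 : rm N w ∣ 1 := by exact_mod_cast h4
  exact Nat.dvd_one.1 h5

end

end Pool.Agent.Zk94.TR
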