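import Pool.Agent.Zk94.TR.Rs

/-!
# Galois extensions: transitivity, stabilisers, the norm formula; divisors modulo `2 ^ a`
-/

set_option autoImplicit false
set_option linter.all false

open Polynomial FF Pool.Agent.Y157.PS

namespace Pool.Agent.Zk94.TR

section gal

variable {κ K K' : Type} [Field κ] [Field K] [Field K']
  [Algebra κ K] [Algebra κ K'] [Algebra K K'] [IsScalarTower κ K K'] [FiniteDimensional K K']

theorem ovr_pull (g : K' ≃ₐ[K] K') (w : Place κ K') :
    rs (Pool.Agent.Y903.PS.pull g w) = rs (K := K) w ∧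
      rm K (Pool.Agent.Y903.PS.pull g w) = rm K w := by
  refine rs_eq ⟨rm_pos w, fun f => ?_⟩
  rw [Pool.Agent.Y903.PS.pull_ordR, ord_alg]

theorem rs_mem_O (w : Place κ K') (z : K) : algebraMap K K' z ∈ w.O ↔ z ∈ (rs (K := K) w).O := by
  rw [Place.mem_O, Place.mem_O]
  exact (ovr w).reg

theorem trans_rs [Normal K K'] {w w' : Place κ K'} (h : rs (K := K) w = rs w') :
    ∃ g : K' ≃ₐ[K] K', Pool.Agent.Y903.PS.pull g w = w' := by
  obtain ⟨γ, hγ⟩ := Pool.Agent.Y536.PS.conj K K' w.O w'.O (by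
    ext z
    change algebraMap K K' z ∈ w.O ↔ algebraMap K K' z ∈ w'.O
    rw [rs_mem_O, rs_mem_O, h])
  refine ⟨γ, ?_⟩
  refine (Place.eq_of_le w' (Pool.Agent.Y903.PS.pull γ w) fun f hf h1 => ?_).symm
  have h2 : f ∈ w'.O := by rw [Place.mem_O, w'.reg_iff hf]; exact h1
  rw [hγ, Place.mem_O, w.reg_iff (by simpa using hf)] at h2
  exact h2

variable [IsAlgClosed κ] [CharZero κ] [IsFF κ K'] [IsGalois K K']

open Classical in
/-- the fibres of `g ↦ pull g w` -/
theorem card_fibre (w w' : Place κ K') (h : rs (K := K) w = rs w') :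
    (Finset.univ.filter (fun g : K' ≃ₐ[K] K' => Pool.Agent.Y903.PS.pull g w = w')).card =
      rm K w := by
  let T : (K' ≃ₐ[K] K') → Place κ K' := fun g => Pool.Agent.Y903.PS.pull g w
  have hsurj : ∀ w' ∈ fib K' (rs (K := K) w), ∃ g, T g = w' := fun w' hw' =>
    trans_rs (mem_fib.1 hw').symm
  have hT : ∀ g, T g ∈ fib K' (rs (K := K) w) := fun g => mem_fib.2 (ovr_pull g w).1
  have hfib : ∀ w' ∈ fib K' (rs (K := K) w), (Finset.univ.filter (fun g => T g = w')).card =
      (Finset.univ.filter (fun g => T g = w)).card := by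
    intro w' hw'
    obtain ⟨g1, hg1⟩ := hsurj w' hw'
    refine Finset.card_bij' (fun g _ => g * g1⁻¹) (fun g _ => g * g1) ?_ ?_ ?_ ?_
    · intro g hg
      rw [Finset.mem_filter] at hg ⊢
      refine ⟨Finset.mem_univ _, ?_⟩
      change Pool.Agent.Y903.PS.pull (g * g1⁻¹) w = w
      rw [Pool.Agent.Y903.PS.pull_mul]
      have h1 : Pool.Agent.Y903.PS.pull g w = Pool.Agent.Y903.PS.pull g1 w := hg.2.trans hg1.symm
      rw [h1, ← Pool.Agent.Y903.PS.pull_mul, mul_inv_cancel, Pool.Agent.Y903.PS.pull_one]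
    · intro g hg
      rw [Finset.mem_filter] at hg ⊢
      refine ⟨Finset.mem_univ _, ?_⟩
      change Pool.Agent.Y903.PS.pull (g * g1) w = w'
      rw [Pool.Agent.Y903.PS.pull_mul]
      have h1 : Pool.Agent.Y903.PS.pull g w = w := hg.2
      rw [h1]
      exact hg1
    · intro g _; exact inv_mul_cancel_right g g1
    · intro g _; exact mul_inv_cancel_right g g1
  have he : ∀ w' ∈ fib K' (rs (K := K) w), rm K w' = rm K w := by
    intro w' hw'
    obtain ⟨g, rfl⟩ := hsurj w' hw'
    exact (ovr_pull g w).2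
  have hsum := sum_rm (K' := K') (rs (K := K) w)
  rw [Finset.sum_congr rfl he, Finset.sum_const, smul_eq_mul,
    ← IsGalois.card_aut_eq_finrank, Nat.card_eq_fintype_card] at hsum
  have hcard : Fintype.card (K' ≃ₐ[K] K') =
      (fib K' (rs (K := K) w)).card * (Finset.univ.filter (fun g => T g = w)).card := by
    rw [← Finset.card_univ, Finset.card_eq_sum_card_fiberwise (f := T)
      (t := fib K' (rs (K := K) w)) (fun g _ => hT g), Finset.sum_congr rfl hfib,
      Finset.sum_const, smul_eq_mul]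
  have hScard : (fib K' (rs (K := K) w)).card ≠ 0 := by
    have := Finset.card_pos.2 (fib_nonempty (K' := K') (rs (K := K) w))
    omega
  have h2 : (Finset.univ.filter (fun g => T g = w)).card = rm K w := by
    rw [hcard] at hsum
    exact (Nat.eq_of_mul_eq_mul_left (Nat.pos_of_ne_zero hScard) hsum).symm
  rw [← h2]
  exact hfib w' (mem_fib.2 h.symm)

open Classical in
/-- **the norm formula** -/
theorem ord_norm (w0 : Place κ K) (z : K') (hz : z ≠ 0) :
    w0.ord (Algebra.norm K z) = ∑ w ∈ fib K' w0, w.ord z := by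
  obtain ⟨w, rfl⟩ := exists_above (K' := K') w0
  let T : (K' ≃ₐ[K] K') → Place κ K' := fun g => Pool.Agent.Y903.PS.pull g w
  have hT : ∀ g, T g ∈ fib K' (rs (K := K) w) := fun g => mem_fib.2 (ovr_pull g w).1
  have h1 : (rm K w : ℤ) * (rs (K := K) w).ord (Algebra.norm K z) =
      (rm K w : ℤ) * ∑ w' ∈ fib K' (rs (K := K) w), w'.ord z := by
    rw [← ord_alg, Algebra.norm_eq_prod_automorphisms, Pool.Agent.Y903.PS.ord_prod w Finset.univ _
      (fun g _ => (map_ne_zero_iff g g.injective).2 hz)]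
    have h2 : ∑ g : K' ≃ₐ[K] K', w.ord (g z) =
        ∑ w' ∈ fib K' (rs (K := K) w), ∑ g ∈ Finset.univ.filter (fun g => T g = w'),
          w.ord (g z) := (Finset.sum_fiberwise_of_maps_to (fun g _ => hT g) _).symm
    rw [h2, Finset.mul_sum]
    refine Finset.sum_congr rfl fun w' hw' => ?_
    have h3 : ∀ g ∈ Finset.univ.filter (fun g => T g = w'), w.ord (g z) = w'.ord z := by
      intro g hg
      rw [← (Finset.mem_filter.1 hg).2]
      rfl
    rw [Finset.sum_congr rfl h3, Finset.sum_const, nsmul_eq_mul,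
      card_fibre w w' (mem_fib.1 hw').symm]
  have h4 : (rm K w : ℤ) ≠ 0 := by
    have := rm_pos (K := K) w
    omega
  exact mul_left_cancel₀ h4 h1

theorem norm_ne_zero' {z : K'} (hz : z ≠ 0) : Algebra.norm K z ≠ 0 :=
  Algebra.norm_ne_zero_iff.2 hz

theorem psh_div [IsFF κ K] (z : K') (hz : z ≠ 0) :
    psh (divisor κ z) = divisor κ (Algebra.norm K z) := by
  ext w0
  rw [psh_apply, divisor_apply, ord_norm w0 z hz]
  rfl

end gal

/-- divisors of even degree are principal modulo `2` -/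
def P2 (κ K : Type) [Field κ] [Field K] [Algebra κ K] : Prop :=
  ∀ D : Place κ K →₀ ℤ, (2 : ℤ) ∣ D.sum (fun _ n => n) →
      ∃ z : K, z ≠ 0 ∧ ∀ w : Place κ K, (2 : ℤ) ∣ w.ord z - D w

section p2

variable {κ K K' : Type} [Field κ] [Field K] [Field K']
  [Algebra κ K] [Algebra κ K'] [Algebra K K'] [IsScalarTower κ K K'] [FiniteDimensional K K']
  [IsAlgClosed κ] [CharZero κ] [IsFF κ K'] [IsGalois K K']

theorem P2.desc (h : P2 κ K') : P2 κ K := by
  classical
  intro D hD
  choose sec hsec using fun w0 : Place κ K => exists_above (K' := K') w0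
  let D' : Place κ K' →₀ ℤ := D.mapDomain sec
  have h1 : psh D' = D := by
    change Finsupp.mapDomain rs (Finsupp.mapDomain sec D) = D
    rw [← Finsupp.mapDomain_comp]
    have h2 : (rs ∘ sec : Place κ K → Place κ K) = id := funext hsec
    rw [h2, Finsupp.mapDomain_id]
  have h2 : D'.sum (fun _ n => n) = D.sum (fun _ n => n) := by
    have := dg_psh (K := K) D'
    rw [h1, dg_eq, dg_eq] at this
    exact this.symm
  obtain ⟨z, hz, h3⟩ := h D' (by rw [h2]; exact hD)
  refine ⟨Algebra.norm K z, norm_ne_zero' hz, fun w0 => ?_⟩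
  have h4 : D w0 = ∑ w ∈ fib K' w0, D' w := by rw [← psh_apply, h1]
  rw [h4, ord_norm w0 z hz, ← Finset.sum_sub_distrib]
  exact Finset.dvd_sum fun w _ => h3 w

end p2

section div

variable {κ K : Type} [Field κ] [Field K] [Algebra κ K] [IsAlgClosed κ] [CharZero κ] [IsFF κ K]

theorem exists_quot {ι : Type} (n : ℕ) (D : ι →₀ ℤ) (h : ∀ w, (n : ℤ) ∣ D w) :
    ∃ E : ι →₀ ℤ, D = n • E := by
  refine ⟨D.mapRange (fun a => a / n) (by simp), ?_⟩
  ext w
  rw [Finsupp.smul_apply, Finsupp.mapRange_apply, nsmul_eq_mul, Int.mul_ediv_cancel' (h w)]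

theorem P2.pow (h : P2 κ K) (a : ℕ) : ∀ D : Place κ K →₀ ℤ, ((2 ^ a : ℕ) : ℤ) ∣ dg D →
    ∃ (E : Place κ K →₀ ℤ) (z : K), z ≠ 0 ∧ D = (2 ^ a) • E + divisor κ z := by
  induction a with
  | zero =>
    intro D _
    refine ⟨D, 1, one_ne_zero, ?_⟩
    ext w
    rw [pow_zero, one_smul, Finsupp.add_apply, divisor_apply, w.ord_one, add_zero]
  | succ a ih =>
    intro D hD
    have h2 : (2 : ℤ) ∣ D.sum (fun _ n => n) := by
      rw [← dg_eq]
      refine dvd_trans ?_ hD
      rw [pow_succ']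
      push_cast
      exact dvd_mul_right _ _
    obtain ⟨z, hz, h3⟩ := h D h2
    obtain ⟨E, hE⟩ := exists_quot 2 (D - divisor κ z) (fun w => by
      rw [Finsupp.sub_apply, divisor_apply]
      have := h3 w
      rw [← dvd_neg] at this
      rw [neg_sub] at this
      exact_mod_cast this)
    have h4 : dg D = 2 * dg E := by
      have h5 := congrArg dg hE
      rw [map_sub, dg_div, sub_zero, map_nsmul, nsmul_eq_mul] at h5
      exact_mod_cast h5
    obtain ⟨F, y, hy, hF⟩ := ih E (by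
      rw [h4, pow_succ'] at hD
      push_cast at hD ⊢
      exact (mul_dvd_mul_iff_left two_ne_zero).1 hD)
    refine ⟨F, z * y ^ 2, mul_ne_zero hz (pow_ne_zero _ hy), ?_⟩
    have h6 : D = 2 • E + divisor κ z := by rw [← hE]; abel
    rw [h6, hF]
    ext w
    simp only [Finsupp.add_apply, Finsupp.smul_apply, divisor_apply, nsmul_eq_mul]
    rw [w.ord_mul hz (pow_ne_zero _ hy), w.ord_pow]
    push_cast
    ring

end div

end Pool.Agent.Zk94.TR
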