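import Pool.Agent.Y157.PS.Stm
import Pool.Agent.Y903.PS.T1A
import Pool.Agent.Helper386.D5V.Helper399_FF4
import Pool.Agent.Y536.PS.CONJ
import Pool.Agent.Y941.PS.T1C

/-!
# Restriction of places, pull-back and push-forward of divisors, the norm formula
-/

set_option autoImplicit false
set_option linter.all false

open Polynomial FF Pool.Agent.Y157.PS

namespace Pool.Agent.Zk94.TR

section rs

variable {κ K K' : Type} [Field κ] [Field K] [Field K']
  [Algebra κ K] [Algebra κ K'] [Algebra K K'] [IsScalarTower κ K K'] [Algebra.IsIntegral K K']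

theorem exists_rs (w : Place κ K') : ∃ (e : ℕ) (w0 : Place κ K), Over w w0 e := by
  apply exists_over
  by_contra hc
  push Not at hc
  obtain ⟨t, ht0, ht⟩ := w.surj
  have h1 : w.Reg t⁻¹ := Place.reg_of_isIntegral (A := K) w (fun a => by
    by_cases ha : algebraMap K K' a = 0
    · rw [ha]; exact w.reg_zero
    · exact (w.reg_iff ha).2 (hc a).ge) (Algebra.IsIntegral.isIntegral t⁻¹)
  rw [w.reg_iff (inv_ne_zero ht0), w.ord_inv, ht] at h1
  omega

/-- the restriction of a place -/
noncomputable def rs (w : Place κ K') : Place κ K := (exists_rs w).choose_spec.choose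

variable (K) in
/-- the ramification index -/
noncomputable def rm (w : Place κ K') : ℕ := (exists_rs (K := K) w).choose

theorem ovr (w : Place κ K') : Over w (rs (K := K) w) (rm K w) :=
  (exists_rs w).choose_spec.choose_spec

theorem over_unique {w : Place κ K'} {w0 w1 : Place κ K} {e e' : ℕ} (h : Over w w0 e)
    (h' : Over w w1 e') : w0 = w1 ∧ e = e' := by
  have h1 : w0 = w1 := by
    refine Place.eq_of_le w0 w1 fun f hf h2 => ?_
    have h3 := h.2 f
    have h4 := h'.2 f
    have h5 : (0 : ℤ) < e := by exact_mod_cast h.1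
    have h6 : (0 : ℤ) < e' := by exact_mod_cast h'.1
    have h7 : 0 ≤ (e' : ℤ) * w1.ord f := by
      rw [← h4, h3]; positivity
    exact nonneg_of_mul_nonneg_right h7 h6
  subst h1
  exact ⟨rfl, h.unique h'⟩

theorem rs_eq {w : Place κ K'} {w0 : Place κ K} {e : ℕ} (h : Over w w0 e) :
    rs w = w0 ∧ rm K w = e := over_unique (ovr w) h

theorem ord_alg (w : Place κ K') (f : K) :
    w.ord (algebraMap K K' f) = rm K w * (rs (K := K) w).ord f := (ovr w).2 f

theorem rm_pos (w : Place κ K') : 0 < rm K w := (ovr w).1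

end rs

section rsf

variable {κ K K' : Type} [Field κ] [Field K] [Field K']
  [Algebra κ K] [Algebra κ K'] [Algebra K K'] [IsScalarTower κ K K'] [FiniteDimensional K K']

variable [IsAlgClosed κ] [CharZero κ] [IsFF κ K']

theorem exists_fib (w0 : Place κ K) : ∃ S : Finset (Place κ K'),
    (∀ w, w ∈ S ↔ rs w = w0) ∧ ∑ w ∈ S, rm K w = Module.finrank K K' := by
  classical
  obtain ⟨S, T, h1, h2, h3⟩ := exists_places_over (K' := K') w0
  have hT : ∀ w ∈ S, rs w = w0 ∧ T w = rm K w := by
    intro w hw
    obtain ⟨e, h, hT, hpos⟩ := h2 w hw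
    obtain ⟨e1, e2⟩ := rs_eq h
    refine ⟨e1, ?_⟩
    rw [hT, e2]
    have hb := Pool.Agent.Y903.PS.const_bij (κ := κ) w
    have h5 : @Module.finrank w0.RF w.RF _ _ h.resMap.toRingHom.toAlgebra.toModule = 1 := by
      letI := h.resMap.toRingHom.toAlgebra
      refine finrank_eq_one (1 : w.RF) one_ne_zero fun y => ?_
      obtain ⟨c, hc⟩ := hb.2 y
      refine ⟨algebraMap κ w0.RF c, ?_⟩
      rw [Algebra.smul_def, mul_one]
      change h.resMap (algebraMap κ w0.RF c) = y
      rw [AlgHom.commutes]
      exact hc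
    rw [h5, mul_one]
  refine ⟨S, fun w => ⟨fun hw => (hT w hw).1, fun hw => h1 w (rm K w) (by
    have := ovr (K := K) w
    rwa [hw] at this)⟩, ?_⟩
  rw [← h3]
  exact (Finset.sum_congr rfl fun w hw => (hT w hw).2).symm

variable (K') in
/-- the places above a place -/
noncomputable def fib (w0 : Place κ K) : Finset (Place κ K') := (exists_fib w0).choose

theorem mem_fib {w0 : Place κ K} {w : Place κ K'} : w ∈ fib K' w0 ↔ rs w = w0 :=
  (exists_fib w0).choose_spec.1 w

theorem sum_rm (w0 : Place κ K) : ∑ w ∈ fib K' w0, rm K w = Module.finrank K K' :=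
  (exists_fib w0).choose_spec.2

theorem fib_nonempty (w0 : Place κ K) : (fib K' w0).Nonempty := by
  by_contra h
  rw [Finset.not_nonempty_iff_eq_empty] at h
  have h1 := sum_rm (K' := K') w0
  rw [h, Finset.sum_empty] at h1
  exact absurd h1.symm Module.finrank_pos.ne'

theorem exists_above (w0 : Place κ K) : ∃ w : Place κ K', rs w = w0 := by
  obtain ⟨w, hw⟩ := fib_nonempty (K' := K') w0
  exact ⟨w, mem_fib.1 hw⟩

/-- push-forward -/
noncomputable def psh : (Place κ K' →₀ ℤ) →+ (Place κ K →₀ ℤ) :=
  Finsupp.mapDomain.addMonoidHom rs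

theorem psh_apply (D : Place κ K' →₀ ℤ) (w0 : Place κ K) : psh D w0 = ∑ w ∈ fib K' w0, D w := by
  classical
  change Finsupp.mapDomain rs D w0 = _
  induction D using Finsupp.induction_linear with
  | zero => simp
  | add f g hf hg =>
    rw [Finsupp.mapDomain_add, Finsupp.add_apply, hf, hg, ← Finset.sum_add_distrib]
    rfl
  | single w n =>
    rw [Finsupp.mapDomain_single]
    by_cases h : rs w = w0
    · rw [h, Finsupp.single_eq_same, Finset.sum_eq_single w, Finsupp.single_eq_same]
      · intro b _ hb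
        exact Finsupp.single_eq_of_ne hb
      · intro h1
        exact absurd (mem_fib.2 h) h1
    · rw [Finsupp.single_eq_of_ne (Ne.symm h), Finset.sum_eq_zero]
      intro b hb
      refine Finsupp.single_eq_of_ne ?_
      rintro rfl
      exact h (mem_fib.1 hb)

open Classical in
/-- pull-back -/
noncomputable def pb : (Place κ K →₀ ℤ) →+ (Place κ K' →₀ ℤ) where
  toFun D := Finsupp.onFinset (D.support.biUnion fun w0 => fib K' w0)
    (fun w => rm K w * D (rs w)) (by
      classical
      intro w hw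
      rw [Finset.mem_biUnion]
      refine ⟨rs w, ?_, mem_fib.2 rfl⟩
      rw [Finsupp.mem_support_iff]
      exact right_ne_zero_of_mul hw)
  map_zero' := by
    ext w
    simp
  map_add' D E := by
    ext w
    simp [mul_add]

theorem pb_apply (D : Place κ K →₀ ℤ) (w : Place κ K') : pb D w = rm K w * D (rs w) := rfl

theorem psh_pb (D : Place κ K →₀ ℤ) : psh (K' := K') (pb D) = Module.finrank K K' • D := by
  ext w0
  rw [psh_apply, Finsupp.smul_apply, nsmul_eq_mul, ← sum_rm (K' := K') w0]
  push_cast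
  rw [Finset.sum_mul]
  refine Finset.sum_congr rfl fun w hw => ?_
  rw [pb_apply, mem_fib.1 hw]

/-- the degree -/
noncomputable def dg {κ K : Type} [Field κ] [Field K] [Algebra κ K] : (Place κ K →₀ ℤ) →+ ℤ :=
  Finsupp.liftAddHom fun _ => AddMonoidHom.id ℤ

theorem dg_eq {κ K : Type} [Field κ] [Field K] [Algebra κ K] (D : Place κ K →₀ ℤ) :
    dg D = D.sum (fun _ n => n) := rfl

theorem dg_psh (D : Place κ K' →₀ ℤ) : dg (psh (K := K) D) = dg D := by
  rw [dg_eq, dg_eq]
  exact Finsupp.sum_mapDomain_index (fun _ => rfl) (fun _ _ _ => rfl)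

theorem pb_div [IsFF κ K] (z : K) : pb (divisor κ z) = divisor κ (algebraMap K K' z) := by
  ext w
  rw [pb_apply, divisor_apply, divisor_apply, ord_alg]

theorem dg_div {κ K : Type} [Field κ] [Field K] [Algebra κ K] [IsAlgClosed κ] [CharZero κ]
    [IsFF κ K] (z : K) : dg (divisor κ z) = 0 :=
  Pool.Agent.Y941.PS.sum_divisor z

end rsf

end Pool.Agent.Zk94.TR
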